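import Pool.Agent.Q86.SA.Stm

/-!
# Project SA: the representation `γ ↦ γ ⊗ γ`
-/

set_option autoImplicit false

namespace Pool.Agent.Q86.SA

open Matrix Topology UpperHalfPlane
open scoped MatrixGroups

/-- the complex matrix of `g` -/
noncomputable def cx (g : SL(2, ℝ)) : Matrix (Fin 2) (Fin 2) ℂ := g.1.map (Complex.ofRealHom)

lemma cx_mul (g h : SL(2, ℝ)) : cx (g * h) = cx g * cx h := by
  have : (g * h).1 = g.1 * h.1 := rfl
  rw [cx, this, Matrix.map_mul]
  rfl

lemma cx_one : cx 1 = 1 := by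
  have : (1 : SL(2, ℝ)).1 = 1 := rfl
  rw [cx, this]
  exact Matrix.map_one _ (map_zero _) (map_one _)

lemma cx_det (g : SL(2, ℝ)) : (cx g).det = 1 := by
  rw [cx, ← RingHom.mapMatrix_apply, ← RingHom.map_det, g.2, map_one]

/-- `γ ↦ γ ⊗ γ` -/
noncomputable def rep0 (Γ : Subgroup SL(2, ℝ)) : Rep Γ 4 where
  toFun γ := ⟨Matrix.reindex finProdFinEquiv finProdFinEquiv
    (Matrix.kroneckerMap (· * ·) (cx γ.1) (cx γ.1)), by
      rw [Matrix.det_reindex_self, Matrix.det_kronecker, cx_det]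
      simp⟩
  map_one' := by
    apply Subtype.ext
    simp only [OneMemClass.coe_one, cx_one]
    rw [show Matrix.kroneckerMap (fun x1 x2 : ℂ => x1 * x2) (1 : Matrix (Fin 2) (Fin 2) ℂ)
      (1 : Matrix (Fin 2) (Fin 2) ℂ) = 1 from Matrix.one_kronecker_one]
    simp
  map_mul' a b := by
    apply Subtype.ext
    simp only [Subgroup.coe_mul, cx_mul]
    rw [show Matrix.kroneckerMap (fun x1 x2 : ℂ => x1 * x2) (cx a.1 * cx b.1) (cx a.1 * cx b.1) =
      Matrix.kroneckerMap (fun x1 x2 : ℂ => x1 * x2) (cx a.1) (cx a.1) *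
      Matrix.kroneckerMap (fun x1 x2 : ℂ => x1 * x2) (cx b.1) (cx b.1) from
      Matrix.mul_kronecker_mul _ _ _ _]
    exact map_mul (Matrix.reindexAlgEquiv ℂ ℂ finProdFinEquiv) _ _

theorem base : S_BASE := by
  intro Γ
  refine ⟨rep0 Γ, ?_⟩
  funext γ
  have h1 : character (rep0 Γ) γ = Matrix.trace (Matrix.reindex finProdFinEquiv finProdFinEquiv
    (Matrix.kroneckerMap (· * ·) (cx γ.1) (cx γ.1))) := rfl
  have h2 : Matrix.trace (Matrix.reindex finProdFinEquiv finProdFinEquiv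
    (Matrix.kroneckerMap (· * ·) (cx γ.1) (cx γ.1))) =
    Matrix.trace (Matrix.kroneckerMap (· * ·) (cx γ.1) (cx γ.1)) := by
    rw [Matrix.trace, Matrix.trace]
    refine Fintype.sum_equiv finProdFinEquiv.symm _ _ fun i => ?_
    rfl
  rw [h1, h2]
  have h3 : Matrix.trace (Matrix.kroneckerMap (· * ·) (cx γ.1) (cx γ.1)) =
    Matrix.trace (cx γ.1) * Matrix.trace (cx γ.1) := Matrix.trace_kronecker _ _
  rw [h3, chi0, tr, Matrix.trace_fin_two]
  simp only [cx, Matrix.map_apply]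
  push_cast
  simp only [Complex.ofRealHom_eq_coe]
  ring

end Pool.Agent.Q86.SA
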