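import Pool.Agent.Q86.SA.Stm

/-!
# Project SA: products of matrices close to a diagonal one expand a cone
-/

set_option autoImplicit false

namespace Pool.Agent.Q86.SA

open Matrix
open scoped MatrixGroups

lemma kk_flow (L : ℝ) (i j : Fin 2 × Fin 2) : kk (flow L) i j =
    if i = j then (if i = (0, 0) then ((Real.exp L : ℝ) : ℂ) else
      if i = (1, 1) then ((Real.exp (-L) : ℝ) : ℂ) else 1) else 0 := by
  obtain ⟨i1, i2⟩ := i
  obtain ⟨j1, j2⟩ := j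
  fin_cases i1 <;> fin_cases i2 <;> fin_cases j1 <;> fin_cases j2 <;>
    simp [kk, flow, ← Complex.exp_add] <;> congr 1 <;> ring

lemma cone_step (L : ℝ) (hL : 1 ≤ L) (M : Matrix (Fin 2 × Fin 2) (Fin 2 × Fin 2) ℂ)
    (hM : ∀ i i', ‖(M - kk (flow L)) i i'‖ ≤ 1 / 32)
    (v : Fin 2 × Fin 2 → ℂ) (hv : ∀ i, ‖v i‖ ≤ ‖v (0, 0)‖) :
    (∀ i, ‖(M *ᵥ v) i‖ ≤ ‖(M *ᵥ v) (0, 0)‖) ∧ 2 * ‖v (0, 0)‖ ≤ ‖(M *ᵥ v) (0, 0)‖ := by
  have hdec : ∀ i, (M *ᵥ v) i = (kk (flow L) *ᵥ v) i + ((M - kk (flow L)) *ᵥ v) i := by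
    intro i
    rw [← Pi.add_apply, ← Matrix.add_mulVec, add_sub_cancel]
  have herr : ∀ i, ‖((M - kk (flow L)) *ᵥ v) i‖ ≤ 1 / 8 * ‖v (0, 0)‖ := by
    intro i
    rw [Matrix.mulVec, dotProduct]
    calc ‖∑ j, (M - kk (flow L)) i j * v j‖ ≤ ∑ j, ‖(M - kk (flow L)) i j * v j‖ :=
          norm_sum_le _ _
      _ ≤ ∑ _j : Fin 2 × Fin 2, 1 / 32 * ‖v (0, 0)‖ := by
          refine Finset.sum_le_sum fun j _ => ?_
          rw [norm_mul]
          exact mul_le_mul (hM i j) (hv j) (norm_nonneg _) (by norm_num)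
      _ = 1 / 8 * ‖v (0, 0)‖ := by
          rw [Finset.sum_const, Finset.card_univ]
          simp only [Fintype.card_prod, Fintype.card_fin, nsmul_eq_mul]
          push_cast
          ring
  have hmain : ∀ i, (kk (flow L) *ᵥ v) i = (if i = (0, 0) then ((Real.exp L : ℝ) : ℂ) else
      if i = (1, 1) then ((Real.exp (-L) : ℝ) : ℂ) else 1) * v i := by
    intro i
    rw [Matrix.mulVec, dotProduct]
    simp only [kk_flow]
    rw [Finset.sum_eq_single i]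
    · simp
    · intro j _ hj
      simp [hj.symm]
    · intro h
      exact absurd (Finset.mem_univ i) h
  have hexp : (2.7 : ℝ) ≤ Real.exp L :=
    (by linarith [Real.exp_one_gt_d9] : (2.7 : ℝ) ≤ Real.exp 1).trans (Real.exp_le_exp.mpr hL)
  have h0 : Real.exp L * ‖v (0, 0)‖ - 1 / 8 * ‖v (0, 0)‖ ≤ ‖(M *ᵥ v) (0, 0)‖ := by
    rw [hdec]
    have h1 : ‖(kk (flow L) *ᵥ v) (0, 0)‖ = Real.exp L * ‖v (0, 0)‖ := by
      rw [hmain, if_pos rfl, norm_mul, Complex.norm_real, Real.norm_eq_abs,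
        abs_of_pos (Real.exp_pos _)]
    have h2 := norm_sub_le_norm_add ((kk (flow L) *ᵥ v) (0, 0)) (((M - kk (flow L)) *ᵥ v) (0, 0))
    have h3 := herr (0, 0)
    linarith
  have hn : 0 ≤ ‖v (0, 0)‖ := norm_nonneg _
  have h00 : 2 * ‖v (0, 0)‖ ≤ ‖(M *ᵥ v) (0, 0)‖ := by nlinarith
  refine ⟨fun i => ?_, h00⟩
  by_cases hi : i = (0, 0)
  · rw [hi]
  · refine le_trans ?_ h00
    rw [hdec]
    have h1 : ‖(kk (flow L) *ᵥ v) i‖ ≤ ‖v (0, 0)‖ := by
      rw [hmain, if_neg hi, norm_mul]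
      have h2 : ‖(if i = (1, 1) then ((Real.exp (-L) : ℝ) : ℂ) else 1)‖ ≤ 1 := by
        split_ifs
        · rw [Complex.norm_real, Real.norm_eq_abs, abs_of_pos (Real.exp_pos _)]
          exact Real.exp_le_one_iff.mpr (by linarith)
        · simp
      calc _ ≤ 1 * ‖v i‖ := by gcongr
        _ ≤ ‖v (0, 0)‖ := by rw [one_mul]; exact hv i
    have h3 := norm_add_le ((kk (flow L) *ᵥ v) i) (((M - kk (flow L)) *ᵥ v) i)
    have h4 := herr i
    linarith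

theorem cone : S_CONE := by
  intro n
  induction n with
  | zero =>
    intro L M hL hM v hv
    simpa using hv
  | succ n ih =>
    intro L M hL hM v hv
    have h1 := ih L (fun j => M (j + 1)) hL (fun j hj => hM (j + 1) (by omega)) v hv
    set w := ((List.ofFn (fun j : Fin n => M (j + 1))).prod *ᵥ v) with hw
    have h2 := cone_step L hL (M 0) (hM 0 (by omega)) w h1.1
    have h3 : (List.ofFn (fun j : Fin (n + 1) => M j)).prod *ᵥ v = M 0 *ᵥ w := by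
      rw [List.ofFn_succ, List.prod_cons, ← Matrix.mulVec_mulVec, hw]
      rfl
    rw [h3]
    refine ⟨h2.1, ?_⟩
    have h4 := h1.2
    have h5 := h2.2
    calc 2 ^ (n + 1) * ‖v (0, 0)‖ = 2 * (2 ^ n * ‖v (0, 0)‖) := by ring
      _ ≤ 2 * ‖w (0, 0)‖ := by gcongr
      _ ≤ _ := h5

end Pool.Agent.Q86.SA
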