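import Mathlib

/-!
# Simple Anosov representations of closed surface groups: definitions

* `IsSurface Γ` : the subgroup `Γ` of `SL(2,ℝ)` acts freely, properly discontinuously and
  cocompactly on the hyperbolic plane `ℍ`, so that `S = Γ \ ℍ` is a closed oriented hyperbolic
  surface with fundamental group `Γ`. The holonomy of every closed oriented hyperbolic surface
  lifts to `SL(2,ℝ)`, so that every such surface is of this form.
* The unit tangent bundle of `ℍ` is `PSL(2,ℝ)`; the element `x` of `SL(2,ℝ)` stands for the image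
  of the upward unit tangent vector at `I` under `x`; its base point is `x • I`, the elements `x`
  and `-x` stand for the same vector, and the geodesic flow is `x ↦ x * flow t`.
* `IsSimpleGeodesic Γ x ℓ` : the geodesic of `S` through `x` is closed and simple, of length `ℓ`.
* `birmanSeries Γ` : the preimage in `SL(2,ℝ)` of the Birman-Series set of `S`.
* `IsSimpleAnosov Γ d k ρ` : the flat bundle of `ρ` has a dominated splitting of rank `k` over the
  Birman-Series set.
* `CharVar Γ d` : the character variety, `act` : the action of the automorphisms of `Γ`,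
  `OutGroup Γ` : the group of outer automorphisms.
* `IsDomain Ω`, `IsMaximalDomain Ω` : (maximal) domains of discontinuity.
-/

set_option autoImplicit false

namespace Pool.Agent.Q86.SA

open Matrix Topology UpperHalfPlane
open scoped MatrixGroups

/-- The group `Γ` acts freely, properly discontinuously and cocompactly on the hyperbolic plane:
`Γ \ ℍ` is a closed oriented hyperbolic surface. -/
structure IsSurface (Γ : Subgroup SL(2, ℝ)) : Prop where
  /-- the action is free -/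
  free : ∀ γ ∈ Γ, ∀ z : ℍ, γ • z = z → γ = 1
  /-- the action is properly discontinuous -/
  properly : ∀ K : Set ℍ, IsCompact K → {γ : SL(2, ℝ) | γ ∈ Γ ∧ ∃ z ∈ K, γ • z ∈ K}.Finite
  /-- the action is cocompact -/
  cocompact : ∃ K : Set ℍ, IsCompact K ∧ ∀ z : ℍ, ∃ γ ∈ Γ, γ • z ∈ K

/-- the one-parameter group of the geodesic flow, `diag(e^(t/2), e^(-t/2))` -/
noncomputable def flow (t : ℝ) : SL(2, ℝ) :=
  ⟨!![Real.exp (t / 2), 0; 0, Real.exp (-(t / 2))], by
    rw [Matrix.det_fin_two_of, ← Real.exp_add]; simp⟩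

/-- The unit tangent vector `x` is tangent to a simple closed geodesic of length `ℓ` of the surface
`Γ \ ℍ`: the orbit of `x` under the geodesic flow closes up after time `ℓ > 0`, and the points of
the geodesic at the times `s` and `t` are equal in `Γ \ ℍ` only if `s - t` is a multiple of `ℓ`. -/
def IsSimpleGeodesic (Γ : Subgroup SL(2, ℝ)) (x : SL(2, ℝ)) (ℓ : ℝ) : Prop :=
  0 < ℓ ∧ (∃ γ ∈ Γ, γ * x = x * flow ℓ ∨ γ * x = -(x * flow ℓ)) ∧
    ∀ s t : ℝ, (∃ γ ∈ Γ, γ • (x * flow s) • (UpperHalfPlane.I : ℍ) =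
      (x * flow t) • (UpperHalfPlane.I : ℍ)) → ∃ n : ℤ, t = s + n * ℓ

/-- The Birman-Series set: the closure of the union of all simple closed geodesics in the unit
tangent bundle of `Γ \ ℍ` (more precisely its preimage in `SL(2,ℝ)`). -/
def birmanSeries (Γ : Subgroup SL(2, ℝ)) : Set SL(2, ℝ) :=
  closure {x | ∃ ℓ, IsSimpleGeodesic Γ x ℓ}

/-- representations of `Γ` in `SL(d,ℂ)` -/
abbrev Rep (Γ : Subgroup SL(2, ℝ)) (d : ℕ) := Γ →* SpecialLinearGroup (Fin d) ℂ

/-- `ρ` is simple `k`-Anosov: over the Birman-Series set the flat bundle of `ρ` has a dominated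
splitting `E^u ⊕ E^s` with `E^u` of rank `k`. The bundle is the quotient of `SL(2,ℝ) × ℂ^d` by the
action `γ (x, v) = (γ x, ρ(γ) v)` of `Γ` and by the sign `(x, v) ↦ (-x, v)`; the splitting is given
by the projection `P x` of `ℂ^d` with image `E^u` and kernel `E^s`, the continuous metric by the
norm `N x` of `ℂ^d`. -/
def IsSimpleAnosov (Γ : Subgroup SL(2, ℝ)) (d k : ℕ) (ρ : Rep Γ d) : Prop :=
  ∃ (P : SL(2, ℝ) → Matrix (Fin d) (Fin d) ℂ) (N : SL(2, ℝ) → (Fin d → ℂ) → ℝ) (C c : ℝ),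
    0 < C ∧ 0 < c ∧
    -- a continuous splitting of rank `k`
    ContinuousOn P (birmanSeries Γ) ∧
    (∀ x ∈ birmanSeries Γ, P x * P x = P x ∧ (P x).rank = k) ∧
    -- which is defined on the bundle and invariant under the flow
    (∀ x ∈ birmanSeries Γ, ∀ γ : Γ, P (γ.1 * x) = (ρ γ).1 * P x * (ρ γ⁻¹).1) ∧
    (∀ x ∈ birmanSeries Γ, P (-x) = P x) ∧
    (∀ x ∈ birmanSeries Γ, ∀ t : ℝ, P (x * flow t) = P x) ∧
    -- a continuous metric on the bundle
    ContinuousOn (fun q : SL(2, ℝ) × (Fin d → ℂ) => N q.1 q.2) (birmanSeries Γ ×ˢ Set.univ) ∧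
    (∀ x ∈ birmanSeries Γ, (∀ v, v ≠ 0 → 0 < N x v) ∧ (∀ v w, N x (v + w) ≤ N x v + N x w) ∧
      ∀ (r : ℂ) (v), N x (r • v) = ‖r‖ * N x v) ∧
    (∀ x ∈ birmanSeries Γ, ∀ (γ : Γ) (v), N (γ.1 * x) ((ρ γ).1 *ᵥ v) = N x v) ∧
    (∀ x ∈ birmanSeries Γ, ∀ v, N (-x) v = N x v) ∧
    -- domination
    ∀ x ∈ birmanSeries Γ, ∀ v w : Fin d → ℂ, P x *ᵥ v = v → v ≠ 0 → P x *ᵥ w = 0 → w ≠ 0 →
      ∀ t : ℝ, 0 ≤ t →
        N (x * flow t) w / N x w ≤ C * Real.exp (-(c * t)) * (N (x * flow t) v / N x v)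

/-- the character `γ ↦ tr ρ(γ)` -/
def character {Γ : Subgroup SL(2, ℝ)} {d : ℕ} (ρ : Rep Γ d) : Γ → ℂ :=
  fun γ => Matrix.trace (ρ γ).1

/-- The character variety of `Γ` in `SL(d,ℂ)`: the points of the quotient of geometric invariant
theory are the characters of the representations, its topology is that of pointwise convergence. -/
abbrev CharVar (Γ : Subgroup SL(2, ℝ)) (d : ℕ) := {χ : Γ → ℂ // ∃ ρ : Rep Γ d, character ρ = χ}

/-- the point `[ρ]` of the character variety -/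
def pt {Γ : Subgroup SL(2, ℝ)} {d : ℕ} (ρ : Rep Γ d) : CharVar Γ d := ⟨character ρ, ρ, rfl⟩

/-- the action of the automorphism `φ` of `Γ` on the character variety: `[ρ] ↦ [ρ ∘ φ⁻¹]` -/
def act {Γ : Subgroup SL(2, ℝ)} {d : ℕ} (φ : MulAut Γ) (χ : CharVar Γ d) : CharVar Γ d :=
  ⟨fun γ => χ.1 (φ⁻¹ γ), by
    obtain ⟨ρ, hρ⟩ := χ.2
    exact ⟨ρ.comp (φ⁻¹ : MulAut Γ).toMonoidHom, by rw [← hρ]; rfl⟩⟩

/-- the group `Out(Γ)` of outer automorphisms, the mapping class group of the surface -/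
abbrev OutGroup (Γ : Subgroup SL(2, ℝ)) := MulAut Γ ⧸ (MulAut.conj : Γ →* MulAut Γ).range

/-- The set `Ω` is a domain of discontinuity: it is open, invariant under the mapping class group,
and the mapping class group acts properly discontinuously on it. -/
def IsDomain {Γ : Subgroup SL(2, ℝ)} {d : ℕ} (Ω : Set (CharVar Γ d)) : Prop :=
  IsOpen Ω ∧ (∀ φ : MulAut Γ, ∀ χ ∈ Ω, act φ χ ∈ Ω) ∧
    ∀ K : Set (CharVar Γ d), K ⊆ Ω → IsCompact K →
      ((QuotientGroup.mk : MulAut Γ → OutGroup Γ) '' {φ | ∃ χ ∈ K, act φ χ ∈ K}).Finite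

/-- a domain of discontinuity which is not properly contained in another one -/
def IsMaximalDomain {Γ : Subgroup SL(2, ℝ)} {d : ℕ} (Ω : Set (CharVar Γ d)) : Prop :=
  IsDomain Ω ∧ ∀ Ω' : Set (CharVar Γ d), IsDomain Ω' → Ω ⊆ Ω' → Ω' = Ω

/-- the simple `k`-Anosov domain: the classes of the simple `k`-Anosov representations -/
def simpleAnosovDomain (Γ : Subgroup SL(2, ℝ)) (d k : ℕ) : Set (CharVar Γ d) :=
  {χ | ∃ ρ : Rep Γ d, IsSimpleAnosov Γ d k ρ ∧ pt ρ = χ}

end Pool.Agent.Q86.SA
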