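import Pool.Agent.Q86.SA.Def
import Pool.Agent.H85R3.HSTopo

/-!
# Project SA: closed hyperbolic surfaces exist
-/

set_option autoImplicit false

namespace Pool.Agent.Q86.SA

open UpperHalfPlane
open scoped MatrixGroups Pointwise

theorem exist : ∃ Γ : Subgroup SL(2, ℝ), IsSurface Γ := by
  obtain ⟨N, -, hN, hM⟩ := Pool.Agent.H85R3.HS.exists_level 1
  have hM' : Pool.Agent.H85R3.HS.MovesFar (Pool.Agent.H85R3.HS.cong N) 1 := hM
  refine ⟨Pool.Agent.H85R3.HS.cong N, hM'.free one_pos, ?_, Pool.Agent.H85R3.HS.cocompact hN⟩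
  intro K hK
  have h1 := hM'.properlyDiscontinuous one_pos
  have h2 := h1.finite_disjoint_inter_image hK hK
  refine (h2.image Subtype.val).subset ?_
  rintro γ ⟨hγ, z, hz, hz'⟩
  exact ⟨⟨γ, hγ⟩, ⟨γ • z, ⟨z, hz, rfl⟩, hz'⟩, rfl⟩

end Pool.Agent.Q86.SA
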