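import Pool.Agent.Q86.SA.Stm

/-!
# Project SA: elementary facts on the geodesic flow
-/

set_option autoImplicit false

namespace Pool.Agent.Q86.SA

open Matrix Topology UpperHalfPlane
open scoped MatrixGroups

lemma flow_add (s t : ℝ) : flow (s + t) = flow s * flow t := by
  apply Subtype.ext
  simp only [flow, SpecialLinearGroup.coe_mul, Matrix.mul_fin_two]
  ext i j
  fin_cases i <;> fin_cases j <;> simp <;> rw [← Real.exp_add] <;> congr 1 <;> ring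

lemma flow_zero : flow 0 = 1 := by
  apply Subtype.ext
  ext i j
  fin_cases i <;> fin_cases j <;> simp [flow]

lemma neg_smul_H (g : SL(2, ℝ)) (z : ℍ) : (-g) • z = g • z := by
  ext
  rw [coe_specialLinearGroup_apply, coe_specialLinearGroup_apply]
  simp only [SpecialLinearGroup.coe_neg, Matrix.neg_apply, map_neg, Complex.ofReal_neg, neg_mul,
    ← neg_add, neg_div_neg_eq]

lemma simple_flow {Γ : Subgroup SL(2, ℝ)} {x : SL(2, ℝ)} {ℓ : ℝ} (h : IsSimpleGeodesic Γ x ℓ)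
    (u : ℝ) : IsSimpleGeodesic Γ (x * flow u) ℓ := by
  obtain ⟨h1, ⟨γ, hγ, h2⟩, h3⟩ := h
  refine ⟨h1, ⟨γ, hγ, ?_⟩, ?_⟩
  · rcases h2 with h2 | h2
    · left
      rw [← mul_assoc, h2, mul_assoc, mul_assoc, ← flow_add, ← flow_add, add_comm]
    · right
      rw [← mul_assoc, h2, mul_assoc, ← flow_add, neg_mul, mul_assoc, ← flow_add, add_comm]
  · rintro s t ⟨γ', hγ', h4⟩
    rw [mul_assoc, mul_assoc, ← flow_add, ← flow_add] at h4
    obtain ⟨n, hn⟩ := h3 (u + s) (u + t) ⟨γ', hγ', h4⟩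
    exact ⟨n, by linarith⟩

lemma simple_neg {Γ : Subgroup SL(2, ℝ)} {x : SL(2, ℝ)} {ℓ : ℝ} (h : IsSimpleGeodesic Γ x ℓ) :
    IsSimpleGeodesic Γ (-x) ℓ := by
  obtain ⟨h1, ⟨γ, hγ, h2⟩, h3⟩ := h
  refine ⟨h1, ⟨γ, hγ, ?_⟩, ?_⟩
  · rcases h2 with h2 | h2
    · left
      rw [mul_neg, h2, neg_mul]
    · right
      rw [mul_neg, h2, neg_mul]
  · rintro s t ⟨γ', hγ', h4⟩
    rw [neg_mul, neg_mul, neg_smul_H, neg_smul_H] at h4
    exact h3 s t ⟨γ', hγ', h4⟩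

lemma mem_bs {Γ : Subgroup SL(2, ℝ)} {x : SL(2, ℝ)} {ℓ : ℝ} (h : IsSimpleGeodesic Γ x ℓ) :
    x ∈ birmanSeries Γ := subset_closure ⟨ℓ, h⟩

lemma pow_flow {x : SL(2, ℝ)} {ℓ : ℝ} {γ : SL(2, ℝ)}
    (h : γ * x = x * flow ℓ ∨ γ * x = -(x * flow ℓ)) (m : ℕ) :
    γ ^ m * x = x * flow (m * ℓ) ∨ γ ^ m * x = -(x * flow (m * ℓ)) := by
  induction m with
  | zero => left; simp [flow_zero]
  | succ m ih =>
    have h1 : flow ((m + 1 : ℕ) * ℓ) = flow (m * ℓ) * flow ℓ := by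
      rw [← flow_add]; congr 1; push_cast; ring
    have h2 : flow ((m + 1 : ℕ) * ℓ) = flow ℓ * flow (m * ℓ) := by
      rw [← flow_add]; congr 1; push_cast; ring
    rw [h2, pow_succ, mul_assoc]
    rcases h with h | h <;> rcases ih with ih | ih
    · left
      rw [h, ← mul_assoc, ih, mul_assoc, ← flow_add, add_comm, flow_add]
    · right
      rw [h, ← mul_assoc, ih, neg_mul, mul_assoc, ← flow_add, add_comm, flow_add]
    · right
      rw [h, mul_neg, ← mul_assoc, ih, mul_assoc, ← flow_add, add_comm, flow_add]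
    · left
      rw [h, mul_neg, ← mul_assoc, ih, neg_mul, mul_assoc, ← flow_add, add_comm, flow_add, neg_neg]

lemma tr_flow (t : ℝ) : tr (flow t) = Real.exp (t / 2) + Real.exp (-(t / 2)) := by
  simp [tr, flow]

lemma tr_eq (g : SL(2, ℝ)) : tr g = Matrix.trace g.1 := by
  simp [tr, Matrix.trace_fin_two]

lemma tr_neg (g : SL(2, ℝ)) : tr (-g) = - tr g := by
  simp [tr]; ring

lemma tr_conj (g x : SL(2, ℝ)) : tr (x * g * x⁻¹) = tr g := by
  rw [tr_eq, tr_eq]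
  have h1 : (x * g * x⁻¹).1 = x.1 * g.1 * (x⁻¹).1 := rfl
  have h2 : (x⁻¹).1 * x.1 = 1 := by
    have : (x⁻¹ * x).1 = (x⁻¹).1 * x.1 := rfl
    rw [← this, inv_mul_cancel]
    rfl
  rw [h1, Matrix.trace_mul_comm, ← mul_assoc, h2, one_mul]

lemma tr_inv (g : SL(2, ℝ)) : tr g⁻¹ = tr g := by
  rw [tr, tr, SpecialLinearGroup.SL2_inv_expl]
  simp [add_comm]

end Pool.Agent.Q86.SA
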