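import Pool.Agent.Q86.SA.Stm

/-!
# Project SA: normal form of idempotents of rank two
-/

set_option autoImplicit false

namespace Pool.Agent.Q86.SA

open Matrix

theorem idem : S_IDEM := by
  intro P hPP hPr
  set f : (Fin 4 → ℂ) →ₗ[ℂ] (Fin 4 → ℂ) := P.mulVecLin with hf
  have hid : IsIdempotentElem f := by
    rw [IsIdempotentElem, hf]
    change P.mulVecLin.comp P.mulVecLin = _
    rw [← Matrix.mulVecLin_mul, hPP]
  have hcompl : IsCompl (LinearMap.range f) (LinearMap.ker f) :=
    LinearMap.IsIdempotentElem.isCompl hid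
  have hr : Module.finrank ℂ (LinearMap.range f) = 2 := hPr
  have hk : Module.finrank ℂ (LinearMap.ker f) = 2 := by
    have := LinearMap.finrank_range_add_finrank_ker f
    rw [hr, Module.finrank_fin_fun] at this
    omega
  let b1 : Module.Basis (Fin 2) ℂ (LinearMap.range f) := Module.finBasisOfFinrankEq ℂ _ hr
  let b2 : Module.Basis (Fin 2) ℂ (LinearMap.ker f) := Module.finBasisOfFinrankEq ℂ _ hk
  let e := Submodule.prodEquivOfIsCompl _ _ hcompl
  let b : Module.Basis (Fin 2 ⊕ Fin 2) ℂ (Fin 4 → ℂ) := (b1.prod b2).map e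
  let s : Module.Basis (Fin 4) ℂ (Fin 4 → ℂ) := Pi.basisFun ℂ (Fin 4)
  refine ⟨s.toMatrix b, b.toMatrix s, s.toMatrix_mul_toMatrix_flip b,
    b.toMatrix_mul_toMatrix_flip s, ?_⟩
  have h1 : P = LinearMap.toMatrix s s f := by
    rw [LinearMap.toMatrix_eq_toMatrix']
    exact (LinearMap.toMatrix'_toLin' P).symm
  rw [h1, basis_toMatrix_mul_linearMap_toMatrix_mul_basis_toMatrix]
  have hl : ∀ i, f (b (Sum.inl i)) = b (Sum.inl i) := by
    intro i
    have : b (Sum.inl i) = (b1 i : Fin 4 → ℂ) := by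
      simp [b, e, Module.Basis.prod_apply]
    rw [this]
    obtain ⟨w, hw⟩ := (b1 i).2
    rw [← hw]
    exact congrFun (congrArg DFunLike.coe hid) w
  have hrr : ∀ i, f (b (Sum.inr i)) = 0 := by
    intro i
    have : b (Sum.inr i) = (b2 i : Fin 4 → ℂ) := by
      simp [b, e, Module.Basis.prod_apply]
    rw [this]
    exact (b2 i).2
  ext i j
  rw [LinearMap.toMatrix_apply]
  rcases j with j | j
  · rw [hl, Module.Basis.repr_self]
    rcases i with i | i
    · simp [Matrix.one_apply, Finsupp.single_apply, eq_comm]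
    · simp
  · rw [hrr, map_zero]
    rcases i with i | i <;> simp

end Pool.Agent.Q86.SA
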