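import Pool.Agent.Q86.SA.Stm

/-!
# Project SA: assembly of the main theorem from the lemma statements
-/

set_option autoImplicit false

namespace Pool.Agent.Q86.SA

open Matrix Topology UpperHalfPlane Filter
open scoped MatrixGroups

variable {Γ : Subgroup SL(2, ℝ)} {d : ℕ}

lemma act_apply (φ : MulAut Γ) (χ : CharVar Γ d) (γ : Γ) : (act φ χ).1 γ = χ.1 (φ⁻¹ γ) := rfl

lemma act_mul (φ ψ : MulAut Γ) (χ : CharVar Γ d) : act (φ * ψ) χ = act φ (act ψ χ) := by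
  apply Subtype.ext
  funext γ
  simp only [act_apply, _root_.mul_inv_rev, MulAut.mul_apply]

lemma act_one (χ : CharVar Γ d) : act (1 : MulAut Γ) χ = χ := by
  apply Subtype.ext
  funext γ
  simp only [act_apply, inv_one, MulAut.one_apply]

lemma act_inv_act (φ : MulAut Γ) (χ : CharVar Γ d) : act φ⁻¹ (act φ χ) = χ := by
  rw [← act_mul, inv_mul_cancel, act_one]

lemma act_continuous (φ : MulAut Γ) : Continuous (act φ : CharVar Γ d → CharVar Γ d) := by
  refine Continuous.subtype_mk ?_ _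
  exact continuous_pi fun γ => (continuous_apply (φ⁻¹ γ)).comp continuous_subtype_val

/-- classes in `Out` -/
abbrev cl (φ : MulAut Γ) : OutGroup Γ := QuotientGroup.mk φ

lemma conj_aut (θ : MulAut Γ) (g : Γ) : θ * MulAut.conj g * θ⁻¹ = MulAut.conj (θ g) := by
  ext1 x
  simp only [MulAut.mul_apply, MulAut.conj_apply, map_mul, map_inv, MulAut.apply_inv_self]

lemma cl_inv_mul {φ φ' : MulAut Γ} (ψ : MulAut Γ) (h : cl φ = cl φ') :
    cl (φ⁻¹ * ψ) = cl (φ'⁻¹ * ψ) := by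
  obtain ⟨g, hg⟩ := QuotientGroup.eq.mp h
  refine QuotientGroup.eq.mpr ⟨(ψ⁻¹ * φ) g⁻¹, ?_⟩
  have h1 : φ' = φ * MulAut.conj g := by rw [hg]; group
  rw [← conj_aut, map_inv, h1]
  group

/-- a map of `Out` for `φ ↦ φ⁻¹ ψ` -/
lemma finite_inv_mul {S : Set (MulAut Γ)} (ψ : MulAut Γ)
    (h : ((cl : MulAut Γ → OutGroup Γ) '' S).Finite) :
    ((cl : MulAut Γ → OutGroup Γ) '' ((fun φ => φ⁻¹ * ψ) '' S)).Finite := by
  refine (h.image fun q : OutGroup Γ => cl ((Quotient.out q)⁻¹ * ψ)).subset ?_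
  rintro q ⟨_, ⟨φ, hφ, rfl⟩, rfl⟩
  refine ⟨cl φ, ⟨φ, hφ, rfl⟩, ?_⟩
  exact cl_inv_mul ψ (QuotientGroup.out_eq' (cl φ))

lemma countable_of_fin (h : S_FIN) (hΓ : IsSurface Γ) : Countable Γ := by
  have h1 : (Γ : Set SL(2, ℝ)) ⊆ ⋃ n : ℕ, {γ : SL(2, ℝ) | γ ∈ Γ ∧ Bd n γ} := by
    intro γ hγ
    obtain ⟨n, hn⟩ := exists_nat_ge (∑ i, ∑ j, |γ.1 i j|)
    refine Set.mem_iUnion.mpr ⟨n, hγ, fun i j => le_trans ?_ hn⟩
    refine le_trans ?_ (Finset.single_le_sum (f := fun i => ∑ j, |γ.1 i j|)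
      (fun i _ => Finset.sum_nonneg fun j _ => abs_nonneg _) (Finset.mem_univ i))
    exact Finset.single_le_sum (f := fun j => |γ.1 i j|) (fun j _ => abs_nonneg _)
      (Finset.mem_univ j)
  have h2 : (Γ : Set SL(2, ℝ)).Countable :=
    Set.Countable.mono h1 (Set.countable_iUnion fun n => (h Γ hΓ n).countable)
  exact h2.to_subtype

/-- the one-sided properness -/
lemma one_sided (h5 : S_OUT) (hΓ : IsSurface Γ) {B : Finset Γ} {ε : ℝ}
    (hB : ∀ M : ℝ, ∃ T : ℝ, ∀ ρ : Rep Γ 4, Near B ε ρ →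
      ∀ γ : Γ, (∀ k ∈ Finset.Icc 1 4, ‖character ρ (γ ^ k)‖ ≤ M) → |tr γ.1| ≤ T)
    {W0 : Set (CharVar Γ 4)} (hW0 : IsOpen W0)
    (hnear : ∀ χ ∈ W0, ∀ ρ : Rep Γ 4, character ρ = χ.1 → Near B ε ρ)
    {x : ℕ → CharVar Γ 4} {φ : ℕ → MulAut Γ} {a b : CharVar Γ 4} (φ0 : MulAut Γ)
    (ha : act φ0 a ∈ W0) (hxa : Tendsto x atTop (𝓝 a))
    (hxb : Tendsto (fun n => act (φ n) (x n)) atTop (𝓝 b)) :
    (Set.range fun n => cl (φ n)).Finite := by
  have hx0 : Tendsto (fun n => act φ0 (x n)) atTop (𝓝 (act φ0 a)) :=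
    ((act_continuous φ0).tendsto a).comp hxa
  obtain ⟨N, hN⟩ := (hx0.eventually (hW0.mem_nhds ha)).exists_forall_of_atTop
  -- the automorphisms ψ n
  have hval : ∀ n γ, (act φ0 (x n)).1 ((φ0 * (φ n)⁻¹) γ) = (act (φ n) (x n)).1 γ := by
    intro n γ
    simp only [act_apply, MulAut.mul_apply, MulAut.inv_apply_self]
  have hbd : ∀ γ : Γ, ∃ M : ℝ, ∀ n, ∀ k ∈ Finset.Icc 1 4,
      ‖(act (φ n) (x n)).1 (γ ^ k)‖ ≤ M := by
    intro γ
    have h1 : ∀ k : ℕ, ∃ M : ℝ, ∀ n, ‖(act (φ n) (x n)).1 (γ ^ k)‖ ≤ M := by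
      intro k
      have h2 : Tendsto (fun n => (act (φ n) (x n)).1 (γ ^ k)) atTop (𝓝 (b.1 (γ ^ k))) :=
        (((continuous_apply (γ ^ k)).comp continuous_subtype_val).tendsto b).comp hxb
      obtain ⟨M, hM⟩ := (Metric.isBounded_range_of_tendsto _ h2).exists_norm_le
      exact ⟨M, fun n => hM _ ⟨n, rfl⟩⟩
    choose M hM using h1
    refine ⟨∑ k ∈ Finset.Icc 1 4, |M k|, fun n k hk => ((hM k n).trans (le_abs_self _)).trans ?_⟩
    exact Finset.single_le_sum (f := fun k => |M k|) (fun k _ => abs_nonneg _) hk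
  choose M hM using hbd
  choose T hT using hB
  have h6 := h5 Γ hΓ (fun γ => T (M γ))
  have h7 : ((cl : MulAut Γ → OutGroup Γ) '' {ψ | ∃ n, N ≤ n ∧ ψ = φ0 * (φ n)⁻¹}).Finite := by
    refine h6.subset (Set.image_mono ?_)
    rintro ψ ⟨n, hn, rfl⟩ γ
    obtain ⟨ρ, hρ⟩ := (act φ0 (x n)).2
    refine hT (M γ) ρ (hnear _ (hN n hn) ρ hρ) _ fun k hk => ?_
    rw [hρ, ← map_pow, hval]
    exact hM γ n k hk
  have h8 := finite_inv_mul φ0 h7
  have h9 : (Set.range fun n => cl (φ n)) ⊆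
      ((cl : MulAut Γ → OutGroup Γ) ''
        ((fun φ => φ⁻¹ * φ0) '' {ψ | ∃ n, N ≤ n ∧ ψ = φ0 * (φ n)⁻¹})) ∪
      (fun n => cl (φ n)) '' (Set.Iio N) := by
    rintro q ⟨n, rfl⟩
    rcases lt_or_ge n N with hn | hn
    · exact Or.inr ⟨n, hn, rfl⟩
    · refine Or.inl ⟨φ n, ⟨_, ⟨n, hn, rfl⟩, ?_⟩, rfl⟩
      group
  exact (h8.union ((Set.finite_Iio N).image _)).subset h9

lemma finite_inv {S : Set (MulAut Γ)} (h : ((cl : MulAut Γ → OutGroup Γ) '' S).Finite) :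
    ((cl : MulAut Γ → OutGroup Γ) '' ((fun φ => φ⁻¹) '' S)).Finite := by
  have := finite_inv_mul (1 : MulAut Γ) h
  simpa using this

theorem main (h0 : S_BASE) (h1 : S_FIN) (h2 : S_NOT) (h3 : S_CONV) (h4 : S_GROW) (h5 : S_OUT) :
    S_MAIN := by
  intro Γ hΓ
  have hcount : Countable Γ := countable_of_fin h1 hΓ
  have hfc : FirstCountableTopology (CharVar Γ 4) :=
    Topology.IsInducing.subtypeVal.firstCountableTopology
  obtain ⟨B, ε, hε, hB⟩ := h4 Γ hΓ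
  obtain ⟨U, hU, hnear⟩ := h3 Γ hΓ B ε hε
  obtain ⟨ρ0, hρ0⟩ := h0 Γ
  set x0 : CharVar Γ 4 := ⟨chi0 Γ, ρ0, hρ0⟩ with hx0
  have hnot : x0 ∉ simpleAnosovDomain Γ 4 2 := by
    rintro ⟨ρ, hρ, hpt⟩
    exact h2 Γ hΓ ρ (congrArg Subtype.val hpt) hρ
  -- the neighbourhood
  have hpre : Subtype.val ⁻¹' U ∈ 𝓝 x0 := continuous_subtype_val.continuousAt hU
  obtain ⟨W0, hW0U, hW0, hxW0⟩ := mem_nhds_iff.mp hpre
  have hnear' : ∀ χ ∈ W0, ∀ ρ : Rep Γ 4, character ρ = χ.1 → Near B ε ρ := by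
    intro χ hχ ρ hρ
    exact hnear ρ (by rw [hρ]; exact hW0U hχ)
  set W : Set (CharVar Γ 4) := {χ | ∃ φ : MulAut Γ, act φ χ ∈ W0} with hW
  have hWo : IsOpen W := by
    have : W = ⋃ φ : MulAut Γ, act φ ⁻¹' W0 := by
      ext χ
      simp [hW]
    rw [this]
    exact isOpen_iUnion fun φ => hW0.preimage (act_continuous φ)
  have hx0W : x0 ∈ W := ⟨1, by rw [act_one]; exact hxW0⟩
  -- one-sided properness
  have hone : ∀ {x : ℕ → CharVar Γ 4} {φ : ℕ → MulAut Γ} {a b : CharVar Γ 4}, a ∈ W →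
      Tendsto x atTop (𝓝 a) → Tendsto (fun n => act (φ n) (x n)) atTop (𝓝 b) →
      (Set.range fun n => cl (φ n)).Finite := by
    rintro x φ a b ⟨φ0, ha⟩ hxa hxb
    exact one_sided h5 hΓ hB hW0 hnear' φ0 ha hxa hxb
  have hdom : ∀ Ω : Set (CharVar Γ 4), IsDomain Ω → IsDomain (Ω ∪ W) := by
    intro Ω hΩ
    refine ⟨hΩ.1.union hWo, ?_, ?_⟩
    · rintro φ χ (hχ | ⟨ψ, hψ⟩)
      · exact Or.inl (hΩ.2.1 φ χ hχ)
      · refine Or.inr ⟨ψ * φ⁻¹, ?_⟩
        rw [act_mul, act_inv_act]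
        exact hψ
    · intro K hK hKc
      by_contra hinf
      have hinf' : Set.Infinite ((QuotientGroup.mk : MulAut Γ → OutGroup Γ) ''
        {φ | ∃ χ ∈ K, act φ χ ∈ K}) := hinf
      -- a sequence with different classes
      set e := hinf'.natEmbedding with he
      have h6 : ∀ n, ∃ φ : MulAut Γ, (∃ χ ∈ K, act φ χ ∈ K) ∧ cl φ = (e n).1 := by
        intro n
        obtain ⟨φ, hφ, h⟩ := (e n).2
        exact ⟨φ, hφ, h⟩
      choose φ hφK hφe using h6
      choose x hxK hyK using hφK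
      have hinj : Function.Injective fun n => cl (φ n) := by
        intro n m hnm
        simp only [hφe] at hnm
        exact e.injective (Subtype.ext hnm)
      obtain ⟨a, haK, σ, hσ, hxa⟩ := hKc.tendsto_subseq hxK
      obtain ⟨b, hbK, τ, hτ, hyb⟩ := hKc.tendsto_subseq (fun n => hyK (σ n))
      -- pass to the subsequence
      set φ' : ℕ → MulAut Γ := fun n => φ (σ (τ n)) with hφ'
      set x' : ℕ → CharVar Γ 4 := fun n => x (σ (τ n)) with hx'
      have hinj' : Function.Injective fun n => cl (φ' n) :=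
        fun n m h => hτ.injective (hσ.injective (hinj h))
      have hxa' : Tendsto x' atTop (𝓝 a) := hxa.comp hτ.tendsto_atTop
      have hyb' : Tendsto (fun n => act (φ' n) (x' n)) atTop (𝓝 b) := hyb
      have hnf : ¬ (Set.range fun n => cl (φ' n)).Finite :=
        (Set.infinite_range_of_injective hinj')
      by_cases ha : a ∈ W
      · exact hnf (hone ha hxa' hyb')
      by_cases hb : b ∈ W
      · have h7 : (Set.range fun n => cl (φ' n)⁻¹).Finite := by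
          refine hone (x := fun n => act (φ' n) (x' n)) (φ := fun n => (φ' n)⁻¹) (b := a) hb hyb' ?_
          simpa only [act_inv_act] using hxa'
        apply hnf
        have h8 : ((cl : MulAut Γ → OutGroup Γ) '' (Set.range fun n => (φ' n)⁻¹)).Finite := by
          rw [← Set.range_comp]
          exact h7
        refine (finite_inv h8).subset ?_
        rintro _ ⟨n, rfl⟩
        exact ⟨φ' n, ⟨(φ' n)⁻¹, ⟨n, rfl⟩, inv_inv _⟩, rfl⟩
      have haΩ : a ∈ Ω := (hK haK).resolve_right ha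
      have hbΩ : b ∈ Ω := (hK hbK).resolve_right hb
      obtain ⟨N, hN⟩ := ((hxa'.eventually (hΩ.1.mem_nhds haΩ)).and
        (hyb'.eventually (hΩ.1.mem_nhds hbΩ))).exists_forall_of_atTop
      have hsh : Tendsto (fun n => n + N) atTop atTop := tendsto_add_atTop_nat N
      have hK1 := (hxa'.comp hsh).isCompact_insert_range
      have hK2 := (hyb'.comp hsh).isCompact_insert_range
      have h9 := hΩ.2.2 _ (Set.union_subset
        (Set.insert_subset haΩ (Set.range_subset_iff.mpr fun n => (hN (n + N) (by omega)).1))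
        (Set.insert_subset hbΩ (Set.range_subset_iff.mpr fun n => (hN (n + N) (by omega)).2)))
        (hK1.union hK2)
      have h10 : (Set.range fun n => cl (φ' (n + N))).Finite := by
        refine h9.subset ?_
        rintro _ ⟨n, rfl⟩
        refine ⟨φ' (n + N), ⟨x' (n + N), ?_, ?_⟩, rfl⟩
        · exact Or.inl (Or.inr ⟨n, rfl⟩)
        · exact Or.inr (Or.inr ⟨n, rfl⟩)
      exact Set.infinite_range_of_injective
        (fun n m h => by simpa using hinj' h : Function.Injective fun n => cl (φ' (n + N))) h10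
  refine ⟨x0, fun γ => rfl, hnot, fun Ω hΩ => ⟨Ω ∪ W, hdom Ω hΩ, Set.subset_union_left,
    Or.inr hx0W⟩, ?_⟩
  rintro ⟨hd, hmax⟩
  have := hmax _ (hdom _ hd) Set.subset_union_left
  apply hnot
  rw [← this]
  exact Or.inr hx0W

end Pool.Agent.Q86.SA
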