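import Pool.Agent.Q86.SA.Stm
import Pool.Agent.TH658.Eq.Newt

/-!
# Project SA: Newton identities for 4x4 matrices
-/

set_option autoImplicit false

namespace Pool.Agent.Q86.SA

open Matrix Polynomial

/-- coefficient of `z^3` -/
noncomputable def n1 (p : ℕ → ℂ) : ℂ := -p 1
/-- coefficient of `z^2` -/
noncomputable def n2 (p : ℕ → ℂ) : ℂ := -(p 2 + n1 p * p 1) / 2
/-- coefficient of `z` -/
noncomputable def n3 (p : ℕ → ℂ) : ℂ := -(p 3 + n1 p * p 2 + n2 p * p 1) / 3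
/-- constant coefficient -/
noncomputable def n4 (p : ℕ → ℂ) : ℂ := -(p 4 + n1 p * p 3 + n2 p * p 2 + n3 p * p 1) / 4

lemma rev_zero (A : Matrix (Fin 4) (Fin 4) ℂ) : A.charpolyRev.coeff 0 = 1 := by
  rw [coeff_zero_eq_eval_zero, Matrix.eval_charpolyRev]

lemma rev_one (A : Matrix (Fin 4) (Fin 4) ℂ) :
    A.charpolyRev.coeff 1 = n1 (fun k => (A ^ k).trace) := by
  have h := Pool.Agent.TH658.Eq.newton A 0
  rw [show Finset.HasAntidiagonal.antidiagonal 0 = {(0, 0)} from rfl, Finset.sum_singleton,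
    rev_zero] at h
  simp only [n1]
  push_cast at h
  linear_combination h

lemma rev_two (A : Matrix (Fin 4) (Fin 4) ℂ) :
    A.charpolyRev.coeff 2 = n2 (fun k => (A ^ k).trace) := by
  have h := Pool.Agent.TH658.Eq.newton A 1
  rw [show Finset.HasAntidiagonal.antidiagonal 1 = {(0, 1), (1, 0)} from rfl,
    Finset.sum_pair (by decide)] at h
  simp only [rev_zero, rev_one] at h
  simp only [n2]
  push_cast at h
  linear_combination h / 2

lemma rev_three (A : Matrix (Fin 4) (Fin 4) ℂ) :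
    A.charpolyRev.coeff 3 = n3 (fun k => (A ^ k).trace) := by
  have h := Pool.Agent.TH658.Eq.newton A 2
  rw [show Finset.HasAntidiagonal.antidiagonal 2 = {(0, 2), (1, 1), (2, 0)} from rfl,
    Finset.sum_insert (by decide), Finset.sum_pair (by decide)] at h
  simp only [rev_zero, rev_one, rev_two] at h
  simp only [n3]
  push_cast at h
  linear_combination h / 3

lemma rev_four (A : Matrix (Fin 4) (Fin 4) ℂ) :
    A.charpolyRev.coeff 4 = n4 (fun k => (A ^ k).trace) := by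
  have h := Pool.Agent.TH658.Eq.newton A 3
  rw [show Finset.HasAntidiagonal.antidiagonal 3 = {(0, 3), (1, 2), (2, 1), (3, 0)} from rfl,
    Finset.sum_insert (by decide), Finset.sum_insert (by decide), Finset.sum_pair (by decide)] at h
  simp only [rev_zero, rev_one, rev_two, rev_three] at h
  simp only [n4]
  push_cast at h
  linear_combination h / 4

/-- the characteristic polynomial of a 4x4 matrix in terms of the traces of the powers -/
theorem charpoly_form (A : Matrix (Fin 4) (Fin 4) ℂ) :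
    A.charpoly = X ^ 4 + C (n1 fun k => (A ^ k).trace) * X ^ 3 + C (n2 fun k => (A ^ k).trace) * X ^ 2
      + C (n3 fun k => (A ^ k).trace) * X + C (n4 fun k => (A ^ k).trace) := by
  have hdeg : A.charpoly.natDegree = 4 := by simp [A.charpoly_natDegree_eq_dim]
  have hrev : ∀ k ≤ 4, A.charpoly.coeff (4 - k) = A.charpolyRev.coeff k := by
    intro k hk
    rw [← Matrix.reverse_charpoly, Polynomial.reverse, hdeg, Polynomial.coeff_reflect,
      Polynomial.revAt_le hk]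
  have h0 := hrev 0 (by norm_num)
  have h1 := hrev 1 (by norm_num)
  have h2 := hrev 2 (by norm_num)
  have h3 := hrev 3 (by norm_num)
  have h4 := hrev 4 (by norm_num)
  simp only [Nat.sub_zero, Nat.reduceSub] at h0 h1 h2 h3 h4
  rw [Polynomial.as_sum_range_C_mul_X_pow A.charpoly, hdeg]
  simp only [Finset.sum_range_succ, Finset.sum_range_zero, h0, h1, h2, h3, h4, rev_zero, rev_one,
    rev_two, rev_three, rev_four]
  simp only [map_one, pow_zero, pow_one, mul_one, one_mul, zero_add]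
  ring

theorem chp : S_CHP := by
  intro A A' h
  rw [charpoly_form, charpoly_form]
  have h1 := h 1 (by decide)
  have h2 := h 2 (by decide)
  have h3 := h 3 (by decide)
  have h4 := h 4 (by decide)
  have e1 : n1 (fun k => (A ^ k).trace) = n1 (fun k => (A' ^ k).trace) := by
    simp only [n1, h1]
  have e2 : n2 (fun k => (A ^ k).trace) = n2 (fun k => (A' ^ k).trace) := by
    simp only [n2, e1, h1, h2]
  have e3 : n3 (fun k => (A ^ k).trace) = n3 (fun k => (A' ^ k).trace) := by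
    simp only [n3, e1, e2, h1, h2, h3]
  have e4 : n4 (fun k => (A ^ k).trace) = n4 (fun k => (A' ^ k).trace) := by
    simp only [n4, e1, e2, e3, h1, h2, h3, h4]
  rw [e1, e2, e3, e4]

theorem newt : S_NEWT := by
  intro M
  have hb1 : ∀ p : ℕ → ℂ, (∀ k ∈ Finset.Icc 1 4, ‖p k‖ ≤ M) → ‖n1 p‖ ≤ |M| := by
    intro p hp
    rw [n1, norm_neg]
    exact (hp 1 (by decide)).trans (le_abs_self _)
  set M2 : ℝ := |M| + |M| * |M| with hM2
  have hb2 : ∀ p : ℕ → ℂ, (∀ k ∈ Finset.Icc 1 4, ‖p k‖ ≤ M) → ‖n2 p‖ ≤ M2 := by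
    intro p hp
    have h1 := (hp 1 (by decide)).trans (le_abs_self _)
    have h2 := (hp 2 (by decide)).trans (le_abs_self _)
    have h3 := hb1 p hp
    rw [n2, norm_div, norm_neg]
    have h4 : ‖p 2 + n1 p * p 1‖ ≤ |M| + |M| * |M| := by
      refine (norm_add_le _ _).trans (add_le_add h2 ?_)
      rw [norm_mul]
      gcongr
    have h5 : ‖(2 : ℂ)‖ = 2 := by norm_num
    rw [h5]
    have h6 := norm_nonneg (p 2 + n1 p * p 1)
    linarith
  set M3 : ℝ := |M| + |M| * |M| + M2 * |M| with hM3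
  have hM2n : 0 ≤ M2 := by positivity
  have hb3 : ∀ p : ℕ → ℂ, (∀ k ∈ Finset.Icc 1 4, ‖p k‖ ≤ M) → ‖n3 p‖ ≤ M3 := by
    intro p hp
    have h1 := (hp 1 (by decide)).trans (le_abs_self _)
    have h2 := (hp 2 (by decide)).trans (le_abs_self _)
    have h3 := (hp 3 (by decide)).trans (le_abs_self _)
    have h4 := hb1 p hp
    have h5 := hb2 p hp
    rw [n3, norm_div, norm_neg]
    have h6 : ‖p 3 + n1 p * p 2 + n2 p * p 1‖ ≤ |M| + |M| * |M| + M2 * |M| := by
      refine (norm_add_le _ _).trans (add_le_add ((norm_add_le _ _).trans (add_le_add h3 ?_)) ?_)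
      · rw [norm_mul]
        gcongr
      · rw [norm_mul]
        gcongr
    have h7 : ‖(3 : ℂ)‖ = 3 := by norm_num
    rw [h7]
    have h8 := norm_nonneg (p 3 + n1 p * p 2 + n2 p * p 1)
    linarith
  set M4 : ℝ := |M| + |M| * |M| + M2 * |M| + M3 * |M| with hM4
  have hM3n : 0 ≤ M3 := by positivity
  have hb4 : ∀ p : ℕ → ℂ, (∀ k ∈ Finset.Icc 1 4, ‖p k‖ ≤ M) → ‖n4 p‖ ≤ M4 := by
    intro p hp
    have h1 := (hp 1 (by decide)).trans (le_abs_self _)
    have h2 := (hp 2 (by decide)).trans (le_abs_self _)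
    have h3 := (hp 3 (by decide)).trans (le_abs_self _)
    have h4 := (hp 4 (by decide)).trans (le_abs_self _)
    have h5 := hb1 p hp
    have h6 := hb2 p hp
    have h7 := hb3 p hp
    rw [n4, norm_div, norm_neg]
    have h8 : ‖p 4 + n1 p * p 3 + n2 p * p 2 + n3 p * p 1‖ ≤
        |M| + |M| * |M| + M2 * |M| + M3 * |M| := by
      refine (norm_add_le _ _).trans (add_le_add ((norm_add_le _ _).trans (add_le_add
        ((norm_add_le _ _).trans (add_le_add h4 ?_)) ?_)) ?_)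
      · rw [norm_mul]
        gcongr
      · rw [norm_mul]
        gcongr
      · rw [norm_mul]
        gcongr
    have h9 : ‖(4 : ℂ)‖ = 4 := by norm_num
    rw [h9]
    have h10 := norm_nonneg (p 4 + n1 p * p 3 + n2 p * p 2 + n3 p * p 1)
    linarith
  have hM4n : 0 ≤ M4 := by positivity
  refine ⟨1 + (|M| + M2 + M3 + M4), fun A hA μ hμ => ?_⟩
  have hroot : A.charpoly.IsRoot μ := Matrix.mem_spectrum_iff_isRoot_charpoly.mp hμ
  rw [charpoly_form] at hroot
  simp only [IsRoot, eval_add, eval_mul, eval_pow, eval_X, eval_C] at hroot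
  have h1 := hb1 _ hA
  have h2 := hb2 _ hA
  have h3 := hb3 _ hA
  have h4 := hb4 _ hA
  generalize n1 (fun k => (A ^ k).trace) = a1 at *
  generalize n2 (fun k => (A ^ k).trace) = a2 at *
  generalize n3 (fun k => (A ^ k).trace) = a3 at *
  generalize n4 (fun k => (A ^ k).trace) = a4 at *
  by_contra hcon
  push Not at hcon
  have hn1 : 1 < ‖μ‖ := by
    have : 0 ≤ |M| + M2 + M3 + M4 := by positivity
    linarith
  have h5 : μ ^ 4 = -(a1 * μ ^ 3 + a2 * μ ^ 2 + a3 * μ + a4) := by linear_combination hroot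
  have h6 : ‖μ‖ ^ 4 ≤ (|M| + M2 + M3 + M4) * ‖μ‖ ^ 3 := by
    rw [← norm_pow, h5, norm_neg]
    have k0 : 0 ≤ ‖μ‖ := norm_nonneg _
    have k1 : (1 : ℝ) ≤ ‖μ‖ ^ 3 := one_le_pow₀ hn1.le
    have k2 : ‖μ‖ ≤ ‖μ‖ ^ 3 := by nlinarith [sq_nonneg ‖μ‖]
    have k3 : ‖μ‖ ^ 2 ≤ ‖μ‖ ^ 3 := by
      apply pow_le_pow_right₀ hn1.le (by norm_num)
    calc ‖a1 * μ ^ 3 + a2 * μ ^ 2 + a3 * μ + a4‖
        ≤ ‖a1 * μ ^ 3‖ + ‖a2 * μ ^ 2‖ + ‖a3 * μ‖ + ‖a4‖ :=
          (norm_add_le _ _).trans (add_le_add_left ((norm_add_le _ _).trans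
            (add_le_add_left (norm_add_le _ _) _)) _)
      _ ≤ |M| * ‖μ‖ ^ 3 + M2 * ‖μ‖ ^ 3 + M3 * ‖μ‖ ^ 3 + M4 * ‖μ‖ ^ 3 := by
          rw [norm_mul, norm_mul, norm_mul, norm_pow, norm_pow]
          have q1 : ‖a1‖ * ‖μ‖ ^ 3 ≤ |M| * ‖μ‖ ^ 3 := by gcongr
          have q2 : ‖a2‖ * ‖μ‖ ^ 2 ≤ M2 * ‖μ‖ ^ 3 := by gcongr
          have q3 : ‖a3‖ * ‖μ‖ ≤ M3 * ‖μ‖ ^ 3 := by gcongr
          have q4 : ‖a4‖ ≤ M4 * ‖μ‖ ^ 3 := by nlinarith
          linarith
      _ = (|M| + M2 + M3 + M4) * ‖μ‖ ^ 3 := by ring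
  have h7 : 0 < ‖μ‖ ^ 3 := by positivity
  have h8 : ‖μ‖ * ‖μ‖ ^ 3 ≤ (|M| + M2 + M3 + M4) * ‖μ‖ ^ 3 := by
    calc ‖μ‖ * ‖μ‖ ^ 3 = ‖μ‖ ^ 4 := by ring
      _ ≤ _ := h6
  have h9 := le_of_mul_le_mul_right h8 h7
  linarith

end Pool.Agent.Q86.SA
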