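import Pool.Agent.Q86.SA.Flow
import Pool.Agent.Q86.SA.Newt

/-!
# Project SA: representations with character `(tr γ)²` are not simple `2`-Anosov
-/

set_option autoImplicit false

namespace Pool.Agent.Q86.SA

open Matrix Topology UpperHalfPlane Polynomial
open scoped MatrixGroups

/-- geometric comparison -/
lemma lt_of_geom {a b C q : ℝ} (ha : 0 < a) (hb : 0 < b) (hq : 0 < q) (hC : 0 < C)
    (h : ∀ m : ℕ, a ^ m ≤ C * Real.exp (-(q * m)) * b ^ m) : a < b := by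
  by_contra hcon
  push Not at hcon
  have h1 : ∀ m : ℕ, Real.exp (q * m) ≤ C := by
    intro m
    have h2 : b ^ m ≤ C * Real.exp (-(q * m)) * b ^ m :=
      (pow_le_pow_left₀ hb.le hcon m).trans (h m)
    have h3 : (1 : ℝ) ≤ C * Real.exp (-(q * m)) := by
      have hbm : 0 < b ^ m := by positivity
      by_contra h4
      push Not at h4
      nlinarith
    rw [Real.exp_neg, ← div_eq_mul_inv, le_div_iff₀ (Real.exp_pos _), one_mul] at h3
    exact h3
  obtain ⟨m, hm⟩ := exists_nat_gt (C / q)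
  have h4 := h1 m
  have h5 : q * m + 1 ≤ Real.exp (q * m) := Real.add_one_le_exp _
  rw [div_lt_iff₀ hq] at hm
  nlinarith

/-- eigenvector of a square complex matrix for a root of the characteristic polynomial -/
lemma exists_eig {n : Type} [Fintype n] [DecidableEq n] (A : Matrix n n ℂ) {μ : ℂ}
    (h : μ ∈ A.charpoly.roots) : ∃ u : n → ℂ, u ≠ 0 ∧ A *ᵥ u = μ • u := by
  have h1 : A.charpoly.IsRoot μ := Polynomial.isRoot_of_mem_roots h
  rw [IsRoot, Matrix.eval_charpoly] at h1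
  obtain ⟨u, hu, h2⟩ := Matrix.exists_mulVec_eq_zero_iff.mpr h1
  refine ⟨u, hu, ?_⟩
  rw [Matrix.sub_mulVec, sub_eq_zero] at h2
  rw [← h2]
  ext i
  simp [Matrix.mulVec, Matrix.scalar_apply, dotProduct, Matrix.diagonal_apply]

lemma mulVec_pow {n : Type} [Fintype n] [DecidableEq n] (A : Matrix n n ℂ) {μ : ℂ} {u : n → ℂ}
    (h : A *ᵥ u = μ • u) (m : ℕ) : (A ^ m) *ᵥ u = μ ^ m • u := by
  induction m with
  | zero => simp
  | succ m ih => rw [pow_succ', ← Matrix.mulVec_mulVec, ih, Matrix.mulVec_smul, h, smul_smul,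
      pow_succ]

/-- the matrix part: the eigenvalues `E, 1, 1, E⁻¹` do not split with a gap in the middle -/
lemma no_gap (h3 : S_IDEM) (P T : Matrix (Fin 4) (Fin 4) ℂ) (E : ℝ) (hE1 : 1 < E)
    (hPP : P * P = P) (hPr : P.rank = 2) (hcomm : T * P = P * T)
    (htr : ∀ m : ℕ, (T ^ m).trace = ((E ^ m + 2 + E⁻¹ ^ m : ℝ) : ℂ))
    (hlt : ∀ {μ ν : ℂ} {v w : Fin 4 → ℂ}, P *ᵥ v = v → v ≠ 0 → P *ᵥ w = 0 → w ≠ 0 →
      T *ᵥ v = μ • v → T *ᵥ w = ν • w → ‖ν‖ < ‖μ‖) : False := by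
  set D : Matrix (Fin 4) (Fin 4) ℂ := Matrix.diagonal ![(E : ℂ), 1, 1, ((E⁻¹ : ℝ) : ℂ)] with hD
  have hDt : ∀ m : ℕ, (D ^ m).trace = ((E ^ m + 2 + E⁻¹ ^ m : ℝ) : ℂ) := by
    intro m
    rw [hD, Matrix.diagonal_pow, Matrix.trace_diagonal, Fin.sum_univ_four]
    simp
    ring
  have hchar : T.charpoly = (X - C (E : ℂ)) * (X - C 1) * (X - C 1) * (X - C ((E⁻¹ : ℝ) : ℂ)) := by
    rw [chp T D fun k _ => by rw [htr, hDt], hD, Matrix.charpoly_diagonal, Fin.prod_univ_four]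
    rfl
  -- block form
  obtain ⟨h, h', hh, hh', hPb⟩ := h3 P hPP hPr
  set T' := h' * T * h with hT'
  obtain ⟨A, B, Cc, Dd, hT'b⟩ : ∃ A B Cc Dd, T' = Matrix.fromBlocks A B Cc Dd :=
    ⟨_, _, _, _, (Matrix.fromBlocks_toBlocks T').symm⟩
  have hcomm' : T' * Matrix.fromBlocks 1 0 0 0 = Matrix.fromBlocks 1 0 0 0 * T' := by
    rw [← hPb, hT']
    calc h' * T * h * (h' * P * h) = h' * T * (h * h') * P * h := by
          simp only [Matrix.mul_assoc]
      _ = h' * (T * P) * h := by rw [hh, Matrix.mul_one, Matrix.mul_assoc h' T]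
      _ = h' * (P * T) * h := by rw [hcomm]
      _ = h' * P * (h * h') * T * h := by rw [hh, Matrix.mul_one, Matrix.mul_assoc h' (P)]
      _ = h' * P * h * (h' * T * h) := by simp only [Matrix.mul_assoc]
  rw [hT'b, Matrix.fromBlocks_multiply, Matrix.fromBlocks_multiply, Matrix.fromBlocks_inj] at hcomm'
  simp only [Matrix.mul_one, Matrix.mul_zero, Matrix.one_mul, Matrix.zero_mul, add_zero] at hcomm'
  obtain ⟨-, hB, hCc, -⟩ := hcomm'
  rw [← hB, hCc] at hT'b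
  have hcharT' : T'.charpoly = T.charpoly := by
    apply Polynomial.funext
    intro z
    rw [Matrix.eval_charpoly, Matrix.eval_charpoly]
    have e1 : Matrix.scalar (Fin 2 ⊕ Fin 2) z - T' = h' * (Matrix.scalar (Fin 4) z - T) * h := by
      rw [Matrix.mul_sub, Matrix.sub_mul, hT']
      congr 1
      have : h' * (Matrix.scalar (Fin 4) z) = z • h' := by
        ext i j
        simp [Matrix.scalar_apply, mul_comm]
      rw [this, Matrix.smul_mul, hh']
      ext i j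
      simp [Matrix.scalar_apply, Matrix.diagonal_apply, Matrix.one_apply]
    rw [e1]
    exact Matrix.det_conj_of_mul_eq_one hh' hh
  have hfac : A.charpoly * Dd.charpoly = T.charpoly := by
    rw [← hcharT', hT'b, Matrix.charpoly_fromBlocks_zero₁₂]
  -- eigenvectors
  have hThv : ∀ u, T *ᵥ (h *ᵥ u) = h *ᵥ (T' *ᵥ u) := by
    intro u
    rw [hT', Matrix.mulVec_mulVec, Matrix.mulVec_mulVec]
    congr 1
    rw [← Matrix.mul_assoc, ← Matrix.mul_assoc, hh, Matrix.one_mul]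
  have hPhv : ∀ u, P *ᵥ (h *ᵥ u) = h *ᵥ ((Matrix.fromBlocks 1 0 0 0 : Matrix (Fin 2 ⊕ Fin 2)
      (Fin 2 ⊕ Fin 2) ℂ) *ᵥ u) := by
    intro u
    rw [← hPb, Matrix.mulVec_mulVec, Matrix.mulVec_mulVec]
    congr 1
    rw [← Matrix.mul_assoc, ← Matrix.mul_assoc, hh, Matrix.one_mul]
  have hhne : ∀ u : Fin 2 ⊕ Fin 2 → ℂ, u ≠ 0 → h *ᵥ u ≠ 0 := by
    intro u hu h0
    apply hu
    have := congrArg (fun w => h' *ᵥ w) h0
    simpa [Matrix.mulVec_mulVec, hh'] using this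
  have hup : ∀ μ ∈ A.charpoly.roots, ∃ v, v ≠ 0 ∧ P *ᵥ v = v ∧ T *ᵥ v = μ • v := by
    intro μ hμ
    obtain ⟨u, hu, hAu⟩ := exists_eig A hμ
    refine ⟨h *ᵥ (Sum.elim u 0), hhne _ ?_, ?_, ?_⟩
    · intro h0
      apply hu
      funext i
      exact congrFun h0 (Sum.inl i)
    · rw [hPhv, Matrix.fromBlocks_mulVec]
      congr 1
      simp
    · rw [hThv, hT'b, Matrix.fromBlocks_mulVec, ← Matrix.mulVec_smul]
      congr 1
      have : (Sum.elim u (0 : Fin 2 → ℂ)) ∘ Sum.inl = u := by simp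
      simp only [Sum.elim_comp_inl, Sum.elim_comp_inr, Matrix.mulVec_zero, Matrix.zero_mulVec,
        add_zero, hAu]
      ext i
      rcases i with i | i <;> simp
  have hdn : ∀ ν ∈ Dd.charpoly.roots, ∃ w, w ≠ 0 ∧ P *ᵥ w = 0 ∧ T *ᵥ w = ν • w := by
    intro μ hμ
    obtain ⟨u, hu, hAu⟩ := exists_eig Dd hμ
    refine ⟨h *ᵥ (Sum.elim 0 u), hhne _ ?_, ?_, ?_⟩
    · intro h0
      apply hu
      funext i
      exact congrFun h0 (Sum.inr i)
    · rw [hPhv, Matrix.fromBlocks_mulVec]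
      simp
    · rw [hThv, hT'b, Matrix.fromBlocks_mulVec, ← Matrix.mulVec_smul]
      congr 1
      simp only [Sum.elim_comp_inl, Sum.elim_comp_inr, Matrix.mulVec_zero, Matrix.zero_mulVec,
        zero_add, hAu]
      ext i
      rcases i with i | i <;> simp
  have hkey : ∀ μ ∈ A.charpoly.roots, ∀ ν ∈ Dd.charpoly.roots, ‖ν‖ < ‖μ‖ := by
    intro μ hμ ν hν
    obtain ⟨v, hv0, hPv, hTv⟩ := hup μ hμ
    obtain ⟨w, hw0, hPw, hTw⟩ := hdn ν hν
    exact hlt hPv hv0 hPw hw0 hTv hTw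
  -- the roots
  have hne : A.charpoly * Dd.charpoly ≠ 0 :=
    mul_ne_zero A.charpoly_monic.ne_zero Dd.charpoly_monic.ne_zero
  have hroots : A.charpoly.roots + Dd.charpoly.roots =
      {(E : ℂ), 1, 1, ((E⁻¹ : ℝ) : ℂ)} := by
    rw [← Polynomial.roots_mul hne, hfac, hchar]
    have : (X - C (E : ℂ)) * (X - C 1) * (X - C 1) * (X - C ((E⁻¹ : ℝ) : ℂ)) =
        (({(E : ℂ), 1, 1, ((E⁻¹ : ℝ) : ℂ)} : Multiset ℂ).map fun a => X - C a).prod := by
      simp [mul_assoc]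
    rw [this, Polynomial.roots_multiset_prod_X_sub_C]
  have hcA : Multiset.card A.charpoly.roots = 2 := by
    rw [← (IsAlgClosed.splits A.charpoly).natDegree_eq_card_roots, A.charpoly_natDegree_eq_dim]
    rfl
  have hcD : Multiset.card Dd.charpoly.roots = 2 := by
    rw [← (IsAlgClosed.splits Dd.charpoly).natDegree_eq_card_roots, Dd.charpoly_natDegree_eq_dim]
    rfl
  have hEne : (E : ℂ) ≠ 1 := by
    intro h0
    have : E = 1 := by exact_mod_cast h0
    linarith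
  have hEi : E⁻¹ < 1 := inv_lt_one_of_one_lt₀ hE1
  have hEine : ((E⁻¹ : ℝ) : ℂ) ≠ 1 := by
    intro h0
    have : E⁻¹ = 1 := by exact_mod_cast h0
    linarith
  have hnE : ‖(E : ℂ)‖ = E := by
    rw [Complex.norm_real, Real.norm_eq_abs, abs_of_pos (by linarith)]
  have hnEi : ‖((E⁻¹ : ℝ) : ℂ)‖ = E⁻¹ := by
    rw [Complex.norm_real, Real.norm_eq_abs, abs_of_pos (by positivity)]
  have hcount : Multiset.count 1 A.charpoly.roots + Multiset.count 1 Dd.charpoly.roots = 2 := by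
    rw [← Multiset.count_add, hroots, show ({(E : ℂ), 1, 1, ((E⁻¹ : ℝ) : ℂ)} : Multiset ℂ) =
      (E : ℂ) ::ₘ 1 ::ₘ 1 ::ₘ {((E⁻¹ : ℝ) : ℂ)} from rfl, Multiset.count_cons_of_ne hEne.symm,
      Multiset.count_cons_self, Multiset.count_cons_self, Multiset.count_singleton,
      if_neg hEine.symm]
  have hmemE : (E : ℂ) ∈ A.charpoly.roots + Dd.charpoly.roots := by rw [hroots]; simp
  have hmemEi : ((E⁻¹ : ℝ) : ℂ) ∈ A.charpoly.roots + Dd.charpoly.roots := by rw [hroots]; simp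
  rcases Nat.eq_zero_or_pos (Multiset.count 1 A.charpoly.roots) with h0 | h0
  · have hD1 : Dd.charpoly.roots = Multiset.replicate 2 1 := by
      refine Multiset.eq_replicate.mpr ⟨hcD, fun b hb => ?_⟩
      have : Multiset.count 1 Dd.charpoly.roots = Multiset.card Dd.charpoly.roots := by omega
      exact (Multiset.count_eq_card.mp this b hb).symm
    have h2 : ((E⁻¹ : ℝ) : ℂ) ∈ A.charpoly.roots := by
      rcases Multiset.mem_add.mp hmemEi with h4 | h4
      · exact h4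
      · rw [hD1] at h4
        exact absurd (Multiset.eq_of_mem_replicate h4) hEine
    have h4 := hkey _ h2 1 (by rw [hD1]; simp)
    rw [hnEi, norm_one] at h4
    linarith
  · rcases Nat.eq_zero_or_pos (Multiset.count 1 Dd.charpoly.roots) with h5 | h5
    · have hA1 : A.charpoly.roots = Multiset.replicate 2 1 := by
        refine Multiset.eq_replicate.mpr ⟨hcA, fun b hb => ?_⟩
        have : Multiset.count 1 A.charpoly.roots = Multiset.card A.charpoly.roots := by omega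
        exact (Multiset.count_eq_card.mp this b hb).symm
      have h2 : (E : ℂ) ∈ Dd.charpoly.roots := by
        rcases Multiset.mem_add.mp hmemE with h4 | h4
        · rw [hA1] at h4
          exact absurd (Multiset.eq_of_mem_replicate h4) hEne
        · exact h4
      have h4 := hkey 1 (by rw [hA1]; simp) _ h2
      rw [hnE, norm_one] at h4
      linarith
    · have h4 := hkey 1 (Multiset.count_pos.mp h0) 1 (Multiset.count_pos.mp h5)
      exact lt_irrefl _ h4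

theorem notin (h1 : S_SYS) (h3 : S_IDEM) : S_NOT := by
  rintro Γ hΓ ρ hρ ⟨P, N, C, c, hC, hc, -, hPk, hPeq, hPneg, hPfl, -, hNn, hNeq, hNneg, hdom⟩
  obtain ⟨x, ℓ, hx⟩ := h1 Γ hΓ
  have hℓ : 0 < ℓ := hx.1
  obtain ⟨γ, hγ, hγx⟩ := hx.2.1
  set g0 : Γ := ⟨γ, hγ⟩ with hg0
  set T : Matrix (Fin 4) (Fin 4) ℂ := (ρ g0⁻¹).1 with hT
  set R : Matrix (Fin 4) (Fin 4) ℂ := (ρ g0).1 with hR
  have hRT : R * T = 1 := by
    have : (ρ g0 * ρ g0⁻¹).1 = R * T := rfl
    rw [← this, ← map_mul, mul_inv_cancel, map_one]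
    rfl
  have hTR : T * R = 1 := by
    have : (ρ g0⁻¹ * ρ g0).1 = T * R := rfl
    rw [← this, ← map_mul, inv_mul_cancel, map_one]
    rfl
  have hxm : x ∈ birmanSeries Γ := mem_bs hx
  have hxf : ∀ t, x * flow t ∈ birmanSeries Γ := fun t => mem_bs (simple_flow hx t)
  -- the projection commutes with T
  have hPx : P x = R * P x * T := by
    have e1 := hPeq x hxm g0
    have e2 : P (γ * x) = P x := by
      rcases hγx with h | h
      · rw [h, hPfl x hxm]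
      · rw [h, hPneg _ (hxf ℓ), hPfl x hxm]
    exact e2.symm.trans e1
  have hcomm : T * P x = P x * T := by
    conv_lhs => rw [hPx]
    rw [← mul_assoc, ← mul_assoc, hTR, one_mul]
  -- powers
  have hTpow : ∀ m : ℕ, (ρ (g0⁻¹ ^ m)).1 = T ^ m := by
    intro m
    rw [map_pow, hT]
    exact Matrix.SpecialLinearGroup.coe_pow (ρ g0⁻¹) m
  have hRTm : ∀ m : ℕ, (ρ (g0 ^ m)).1 * T ^ m = 1 := by
    intro m
    rw [← hTpow]
    have : (ρ (g0 ^ m) * ρ (g0⁻¹ ^ m)).1 = (ρ (g0 ^ m)).1 * (ρ (g0⁻¹ ^ m)).1 := rfl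
    rw [← this, ← map_mul, inv_pow, mul_inv_cancel, map_one]
    rfl
  have hN : ∀ (m : ℕ) (v : Fin 4 → ℂ), N (x * flow (m * ℓ)) v = N x ((T ^ m) *ᵥ v) := by
    intro m v
    have e1 : N (x * flow (m * ℓ)) v = N (γ ^ m * x) v := by
      rcases pow_flow hγx m with h | h
      · rw [h]
      · rw [h, hNneg _ (hxf _)]
    rw [e1]
    have e2 := hNeq x hxm (g0 ^ m) ((T ^ m) *ᵥ v)
    rw [Matrix.mulVec_mulVec, hRTm, Matrix.one_mulVec] at e2
    rw [← e2]
    rfl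
  have hNs : ∀ (r : ℂ) (v), N x (r • v) = ‖r‖ * N x v := (hNn x hxm).2.2
  have hNp : ∀ v, v ≠ 0 → 0 < N x v := (hNn x hxm).1
  have hTne : ∀ {μ : ℂ} {v : Fin 4 → ℂ}, v ≠ 0 → T *ᵥ v = μ • v → μ ≠ 0 := by
    intro μ v hv h h0
    apply hv
    rw [h0, zero_smul] at h
    have := congrArg (fun w => R *ᵥ w) h
    simpa [Matrix.mulVec_mulVec, hRT] using this
  have hlt : ∀ {μ ν : ℂ} {v w : Fin 4 → ℂ}, P x *ᵥ v = v → v ≠ 0 → P x *ᵥ w = 0 → w ≠ 0 →
      T *ᵥ v = μ • v → T *ᵥ w = ν • w → ‖ν‖ < ‖μ‖ := by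
    intro μ ν v w hv hv0 hw hw0 hTv hTw
    refine lt_of_geom (norm_pos_iff.mpr (hTne hw0 hTw)) (norm_pos_iff.mpr (hTne hv0 hTv))
      (mul_pos hc hℓ) hC fun m => ?_
    have e1 := hdom x hxm v w hv hv0 hw hw0 (m * ℓ) (by positivity)
    rw [hN, hN, mulVec_pow T hTv, mulVec_pow T hTw, hNs, hNs, mul_div_cancel_right₀ _
      (hNp w hw0).ne', mul_div_cancel_right₀ _ (hNp v hv0).ne', norm_pow, norm_pow] at e1
    rw [show c * ℓ * (m : ℝ) = c * (m * ℓ) by ring]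
    exact e1
  -- the characteristic polynomial
  set E : ℝ := Real.exp ℓ with hE
  have hE1 : 1 < E := by rw [hE]; exact Real.one_lt_exp_iff.mpr hℓ
  have htr : ∀ m : ℕ, (T ^ m).trace = ((E ^ m + 2 + E⁻¹ ^ m : ℝ) : ℂ) := by
    intro m
    rw [← hTpow]
    have e1 : (Matrix.trace (ρ (g0⁻¹ ^ m)).1) = chi0 Γ (g0⁻¹ ^ m) := congrFun hρ _
    rw [e1, chi0]
    congr 1
    have e2 : tr ((g0⁻¹ ^ m : Γ) : SL(2, ℝ)) = tr (γ ^ m) := by
      have : ((g0⁻¹ ^ m : Γ) : SL(2, ℝ)) = (γ ^ m)⁻¹ := by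
        rw [Subgroup.coe_pow, Subgroup.coe_inv, inv_pow]
      rw [this, tr_inv]
    rw [e2]
    have e3 : (tr (γ ^ m)) ^ 2 = (tr (flow (m * ℓ))) ^ 2 := by
      rcases pow_flow hγx m with h | h
      · have : γ ^ m = x * flow (m * ℓ) * x⁻¹ := by rw [← h]; group
        rw [this, tr_conj]
      · have : γ ^ m = -(x * flow (m * ℓ) * x⁻¹) := by rw [← neg_mul, ← h]; group
        rw [this, tr_neg, tr_conj, neg_sq]
    rw [e3, tr_flow, hE, ← Real.exp_neg, ← Real.exp_nat_mul, ← Real.exp_nat_mul, add_sq,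
      ← Real.exp_nat_mul, ← Real.exp_nat_mul, mul_assoc, ← Real.exp_add]
    have k1 : ((2 : ℕ) : ℝ) * (m * ℓ / 2) = m * ℓ := by push_cast; ring
    have k2 : m * ℓ / 2 + -(m * ℓ / 2) = 0 := by ring
    have k3 : ((2 : ℕ) : ℝ) * -(m * ℓ / 2) = m * -ℓ := by push_cast; ring
    rw [k1, k2, k3, Real.exp_zero, mul_one]
  exact no_gap h3 (P x) T E hE1 (hPk x hxm).1 (hPk x hxm).2 hcomm htr hlt

end Pool.Agent.Q86.SA
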