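import Pool.Agent.Q86.SA.Stm
import Pool.Agent.TH658.Eq.Newt

/-! Lemma job PROJ of the project SA of helper86. -/

set_option autoImplicit false

namespace Pool.Agent.Q86.SA.PJ

open Matrix Topology Pool.Agent.Q86.SA Filter

/-! ### the coefficients of the characteristic polynomial -/

/-- the coefficients as functions of the traces -/
noncomputable def e1 (t : Fin 4 → ℂ) : ℂ := -t 0
noncomputable def e2 (t : Fin 4 → ℂ) : ℂ := -(t 1 + e1 t * t 0) / 2
noncomputable def e3 (t : Fin 4 → ℂ) : ℂ := -(t 2 + e1 t * t 1 + e2 t * t 0) / 3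
noncomputable def e4 (t : Fin 4 → ℂ) : ℂ := -(t 3 + e1 t * t 2 + e2 t * t 1 + e3 t * t 0) / 4

/-- the traces of the powers -/
noncomputable def trs (A : Matrix (Fin 4) (Fin 4) ℂ) : Fin 4 → ℂ := fun k => (A ^ (k.1 + 1)).trace

theorem rev0 (A : Matrix (Fin 4) (Fin 4) ℂ) : A.charpolyRev.coeff 0 = 1 := by
  rw [Polynomial.coeff_zero_eq_eval_zero, Matrix.eval_charpolyRev]

theorem trs0 (A : Matrix (Fin 4) (Fin 4) ℂ) : (A ^ (0 + 1)).trace = trs A 0 := rfl
theorem trs1 (A : Matrix (Fin 4) (Fin 4) ℂ) : (A ^ (1 + 1)).trace = trs A 1 := rfl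
theorem trs2 (A : Matrix (Fin 4) (Fin 4) ℂ) : (A ^ (2 + 1)).trace = trs A 2 := rfl
theorem trs3 (A : Matrix (Fin 4) (Fin 4) ℂ) : (A ^ (3 + 1)).trace = trs A 3 := rfl

theorem rev1 (A : Matrix (Fin 4) (Fin 4) ℂ) : A.charpolyRev.coeff 1 = e1 (trs A) := by
  have h := Pool.Agent.TH658.Eq.newton A 0
  rw [Finset.Nat.sum_antidiagonal_eq_sum_range_succ_mk, Finset.sum_range_one] at h
  simp only [Nat.sub_zero, rev0, trs0] at h
  unfold e1
  push_cast at h
  linear_combination h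

theorem rev2 (A : Matrix (Fin 4) (Fin 4) ℂ) : A.charpolyRev.coeff 2 = e2 (trs A) := by
  have h := Pool.Agent.TH658.Eq.newton A 1
  rw [Finset.Nat.sum_antidiagonal_eq_sum_range_succ_mk, Finset.sum_range_succ,
    Finset.sum_range_one] at h
  simp only [Nat.sub_zero, Nat.sub_self, rev0, rev1, trs0, trs1] at h
  unfold e2
  push_cast at h
  linear_combination h / 2

theorem rev3 (A : Matrix (Fin 4) (Fin 4) ℂ) : A.charpolyRev.coeff 3 = e3 (trs A) := by
  have h := Pool.Agent.TH658.Eq.newton A 2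
  rw [Finset.Nat.sum_antidiagonal_eq_sum_range_succ_mk, Finset.sum_range_succ,
    Finset.sum_range_succ, Finset.sum_range_one] at h
  simp only [Nat.sub_zero, Nat.sub_self, Nat.reduceSub, rev0, rev1, rev2, trs0, trs1, trs2] at h
  unfold e3
  push_cast at h
  linear_combination h / 3

theorem rev4 (A : Matrix (Fin 4) (Fin 4) ℂ) : A.charpolyRev.coeff 4 = e4 (trs A) := by
  have h := Pool.Agent.TH658.Eq.newton A 3
  rw [Finset.Nat.sum_antidiagonal_eq_sum_range_succ_mk, Finset.sum_range_succ,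
    Finset.sum_range_succ, Finset.sum_range_succ, Finset.sum_range_one] at h
  simp only [Nat.sub_zero, Nat.sub_self, Nat.reduceSub, rev0, rev1, rev2, rev3, trs0, trs1, trs2,
    trs3] at h
  unfold e4
  push_cast at h
  linear_combination h / 4

theorem cp_coeff (A : Matrix (Fin 4) (Fin 4) ℂ) (j : ℕ) (hj : j ≤ 4) :
    A.charpoly.coeff (4 - j) = A.charpolyRev.coeff j := by
  rw [← Matrix.reverse_charpoly, Polynomial.coeff_reverse, Matrix.charpoly_natDegree_eq_dim,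
    Fintype.card_fin, Polynomial.revAt_le hj]

theorem charpoly_eq (A : Matrix (Fin 4) (Fin 4) ℂ) : A.charpoly =
    Polynomial.X ^ 4 + Polynomial.C (e1 (trs A)) * Polynomial.X ^ 3 +
      Polynomial.C (e2 (trs A)) * Polynomial.X ^ 2 + Polynomial.C (e3 (trs A)) * Polynomial.X +
        Polynomial.C (e4 (trs A)) := by
  have hd : A.charpoly.natDegree = 4 := by
    rw [Matrix.charpoly_natDegree_eq_dim, Fintype.card_fin]
  have h0 := cp_coeff A 0 (by norm_num)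
  have h1 := cp_coeff A 1 (by norm_num)
  have h2 := cp_coeff A 2 (by norm_num)
  have h3 := cp_coeff A 3 (by norm_num)
  have h4 := cp_coeff A 4 (by norm_num)
  rw [rev0] at h0
  rw [rev1] at h1
  rw [rev2] at h2
  rw [rev3] at h3
  rw [rev4] at h4
  norm_num at h0 h1 h2 h3 h4
  conv_lhs => rw [A.charpoly.as_sum_range_C_mul_X_pow, hd]
  rw [Finset.sum_range_succ, Finset.sum_range_succ, Finset.sum_range_succ, Finset.sum_range_succ,
    Finset.sum_range_one, h0, h1, h2, h3, h4, map_one]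
  ring

/-- Cayley-Hamilton -/
theorem cayley (A : Matrix (Fin 4) (Fin 4) ℂ) : A ^ 4 + e1 (trs A) • A ^ 3 + e2 (trs A) • A ^ 2 +
    e3 (trs A) • A + e4 (trs A) • 1 = 0 := by
  have h := Matrix.aeval_self_charpoly A
  rw [charpoly_eq] at h
  simp only [map_add, map_mul, map_pow, Polynomial.aeval_X, Polynomial.aeval_C,
    Algebra.algebraMap_eq_smul_one, smul_mul_assoc, one_mul] at h
  exact h

/-! ### roots -/

theorem prod_ge (s : Multiset ℂ) (w : ℂ) (r : ℝ) (hr : 0 ≤ r) (h : ∀ θ ∈ s, r ≤ ‖w - θ‖) :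
    r ^ (Multiset.card s) ≤ ‖(s.map (w - ·)).prod‖ := by
  induction s using Multiset.induction_on with
  | empty => simp
  | cons a s ih =>
    rw [Multiset.card_cons, Multiset.map_cons, Multiset.prod_cons, norm_mul, pow_succ, mul_comm]
    exact mul_le_mul (h a (Multiset.mem_cons_self a s))
      (ih fun θ hθ => h θ (Multiset.mem_cons_of_mem hθ)) (pow_nonneg hr _) (norm_nonneg _)

theorem root_near (A : Matrix (Fin 4) (Fin 4) ℂ) (w : ℂ) (r : ℝ) (hr : 0 ≤ r)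
    (h : ‖A.charpoly.eval w‖ < r ^ 4) : ∃ θ, A.charpoly.eval θ = 0 ∧ ‖w - θ‖ < r := by
  by_contra hcon
  push Not at hcon
  have h1 : A.charpoly ≠ 0 := A.charpoly_monic.ne_zero
  have hsp : A.charpoly.Splits := IsAlgClosed.splits _
  have h2 := prod_ge A.charpoly.roots w r hr (fun θ hθ => hcon θ (by
    exact (Polynomial.mem_roots h1).mp hθ))
  have h3 : Multiset.card A.charpoly.roots = 4 := by
    rw [← hsp.natDegree_eq_card_roots, Matrix.charpoly_natDegree_eq_dim, Fintype.card_fin]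
  rw [h3, ← hsp.eval_eq_prod_roots_of_monic A.charpoly_monic] at h2
  exact absurd h (not_lt.mpr h2)

theorem eval_charpoly (A : Matrix (Fin 4) (Fin 4) ℂ) (w : ℂ) : A.charpoly.eval w =
    w ^ 4 + e1 (trs A) * w ^ 3 + e2 (trs A) * w ^ 2 + e3 (trs A) * w + e4 (trs A) := by
  rw [charpoly_eq]
  simp

/-! ### idempotents of trace one -/

theorem rank_one (P : Matrix (Fin 4) (Fin 4) ℂ) (h : P * P = P) (ht : P.trace = 1) :
    ∃ p q : Fin 4 → ℂ, q ⬝ᵥ p = 1 ∧ Matrix.vecMulVec p q = P := by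
  set f : (Fin 4 → ℂ) →ₗ[ℂ] (Fin 4 → ℂ) := Matrix.toLin' P with hf
  have hid : IsIdempotentElem f := by
    show f * f = f
    rw [hf]
    show Matrix.toLin' P ∘ₗ Matrix.toLin' P = Matrix.toLin' P
    rw [← Matrix.toLin'_mul, h]
  have h1 : LinearMap.trace ℂ _ f = (Module.finrank ℂ ↥(LinearMap.range f) : ℂ) :=
    (LinearMap.IsIdempotentElem.isProj_range f hid).trace
  have h2 : LinearMap.trace ℂ _ f = 1 := by
    rw [hf, Matrix.trace_toLin'_eq, ht]
  have h3 : Module.finrank ℂ ↥(LinearMap.range f) = 1 := by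
    rw [h2] at h1
    exact_mod_cast h1.symm
  obtain ⟨⟨p, hp⟩, _, hsp⟩ := finrank_eq_one_iff'.mp h3
  have h4 : ∀ j : Fin 4, ∃ c : ℂ, c • p = P *ᵥ Pi.single j 1 := by
    intro j
    obtain ⟨c, hc⟩ := hsp ⟨f (Pi.single j 1), LinearMap.mem_range_self f _⟩
    refine ⟨c, ?_⟩
    have h6 : c • p = f (Pi.single j 1) := congrArg Subtype.val hc
    rw [h6, hf, Matrix.toLin'_apply]
  choose q hq using h4
  have h5 : Matrix.vecMulVec p q = P := by
    ext i j
    have := congrFun (hq j) i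
    rw [Matrix.mulVec_single_one] at this
    rw [Matrix.vecMulVec_apply]
    simp only [Pi.smul_apply, smul_eq_mul, Matrix.col_apply] at this
    rw [← this, mul_comm]
  refine ⟨p, q, ?_, h5⟩
  rw [dotProduct_comm, ← Matrix.trace_vecMulVec, h5, ht]

/-! ### the projection -/

/-- the quotient by `z - θ` -/
noncomputable def q2 (t : Fin 4 → ℂ) (θ : ℂ) : ℂ := θ + e1 t
noncomputable def q1 (t : Fin 4 → ℂ) (θ : ℂ) : ℂ := θ * q2 t θ + e2 t
noncomputable def q0 (t : Fin 4 → ℂ) (θ : ℂ) : ℂ := θ * q1 t θ + e3 t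
/-- its value at `θ` -/
noncomputable def dd (t : Fin 4 → ℂ) (θ : ℂ) : ℂ := θ ^ 3 + q2 t θ * θ ^ 2 + q1 t θ * θ + q0 t θ

/-- the coefficients of the projection -/
noncomputable def cc (t : Fin 4 → ℂ) (θ : ℂ) : Fin 4 → ℂ :=
  ![q0 t θ / dd t θ, q1 t θ / dd t θ, q2 t θ / dd t θ, 1 / dd t θ]

theorem proj_one (A : Matrix (Fin 4) (Fin 4) ℂ) (θ : ℂ) (h : A.charpoly.eval θ = 0)
    (hd : dd (trs A) θ ≠ 0) : ∃ p q : Fin 4 → ℂ, q ⬝ᵥ p = 1 ∧
      Matrix.vecMulVec p q = ∑ i : Fin 4, cc (trs A) θ i • A ^ (i : ℕ) := by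
  set t := trs A with ht
  set Q : Matrix (Fin 4) (Fin 4) ℂ := A ^ 3 + q2 t θ • A ^ 2 + q1 t θ • A + q0 t θ • 1 with hQ
  have hch := cayley A
  rw [eval_charpoly, ← ht] at h
  rw [← ht] at hch
  -- `A Q = θ Q`
  have h1 : A * Q = θ • Q := by
    have e : A * Q - θ • Q = (A ^ 4 + e1 t • A ^ 3 + e2 t • A ^ 2 + e3 t • A + e4 t • 1) -
        (θ ^ 4 + e1 t * θ ^ 3 + e2 t * θ ^ 2 + e3 t * θ + e4 t) • (1 : Matrix _ _ ℂ) := by
      have a2 : A * A = A ^ 2 := (pow_two A).symm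
      have a3 : A * A ^ 2 = A ^ 3 := (pow_succ' A 2).symm
      have a4 : A * A ^ 3 = A ^ 4 := (pow_succ' A 3).symm
      rw [hQ]
      unfold q0 q1 q2
      rw [mul_add, mul_add, mul_add, Matrix.mul_smul, Matrix.mul_smul, Matrix.mul_smul, mul_one,
        a2, a3, a4]
      module
    rw [hch, h, zero_smul, sub_zero] at e
    exact sub_eq_zero.mp e
  have h2 : A ^ 2 * Q = θ ^ 2 • Q := by
    rw [pow_two, mul_assoc, h1, Matrix.mul_smul, h1, smul_smul, pow_two]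
  have h3 : A ^ 3 * Q = θ ^ 3 • Q := by
    rw [pow_succ, mul_assoc, h1, Matrix.mul_smul, h2, smul_smul]
    congr 1
    ring
  have h4 : Q * Q = dd t θ • Q := by
    conv_lhs => rw [hQ]
    rw [← hQ]
    unfold dd
    rw [add_mul, add_mul, add_mul, Matrix.smul_mul, Matrix.smul_mul, Matrix.smul_mul, h1, h2, h3,
      one_mul]
    module
  have hsum : ∑ i : Fin 4, cc t θ i • A ^ (i : ℕ) = (dd t θ)⁻¹ • Q := by
    rw [Fin.sum_univ_four, hQ]
    unfold cc
    simp only [Matrix.cons_val_zero, Matrix.cons_val_one, Matrix.cons_val, Fin.val_zero,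
      Fin.val_one, Fin.val_two, pow_zero, pow_one, div_eq_mul_inv, one_mul]
    have : ((3 : Fin 4) : ℕ) = 3 := rfl
    rw [this]
    module
  rw [hsum]
  apply rank_one
  · rw [Matrix.smul_mul, Matrix.mul_smul, h4, smul_smul, smul_smul, mul_assoc,
      inv_mul_cancel₀ hd, mul_one]
  · rw [Matrix.trace_smul, smul_eq_mul]
    have h5 : Q.trace = dd t θ := by
      rw [hQ, Matrix.trace_add, Matrix.trace_add, Matrix.trace_add, Matrix.trace_smul,
        Matrix.trace_smul, Matrix.trace_smul, Matrix.trace_one, Fintype.card_fin]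
      have t0 : A.trace = t 0 := by rw [ht]; unfold trs; simp
      have t1 : (A ^ 2).trace = t 1 := rfl
      have t2 : (A ^ 3).trace = t 2 := rfl
      rw [t0, t1, t2]
      unfold dd q0 q1 q2 e3 e2 e1
      push_cast
      simp only [smul_eq_mul]
      ring
    rw [h5, inv_mul_cancel₀ hd]

/-! ### continuity -/

theorem c_e1 : Continuous e1 := by unfold e1; fun_prop
theorem c_e2 : Continuous e2 := by unfold e2; have := c_e1; fun_prop
theorem c_e3 : Continuous e3 := by unfold e3; have := c_e1; have := c_e2; fun_prop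
theorem c_e4 : Continuous e4 := by
  unfold e4; have := c_e1; have := c_e2; have := c_e3; fun_prop

theorem c_q2 : Continuous fun x : (Fin 4 → ℂ) × ℂ => q2 x.1 x.2 := by
  unfold q2; have := c_e1; fun_prop
theorem c_q1 : Continuous fun x : (Fin 4 → ℂ) × ℂ => q1 x.1 x.2 := by
  unfold q1; have := c_e2; have := c_q2; fun_prop
theorem c_q0 : Continuous fun x : (Fin 4 → ℂ) × ℂ => q0 x.1 x.2 := by
  unfold q0; have := c_e3; have := c_q1; fun_prop
theorem c_dd : Continuous fun x : (Fin 4 → ℂ) × ℂ => dd x.1 x.2 := by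
  unfold dd; have := c_q0; have := c_q1; have := c_q2; fun_prop

/-- the traces of the powers in the limit -/
noncomputable def t0 (lam : ℝ) : Fin 4 → ℂ :=
  fun k => (((lam ^ (k.1 + 1) + lam⁻¹ ^ (k.1 + 1)) ^ 2 : ℝ) : ℂ)

section limit

variable (lam : ℝ) (hl : 1 < lam)

include hl in
theorem t_k (k : Fin 4) : t0 lam k =
    ((lam : ℂ) ^ 2) ^ (k.1 + 1) + 2 + (((lam : ℂ) ^ 2)⁻¹) ^ (k.1 + 1) := by
  have h : (lam : ℂ) ≠ 0 := by
    rw [Ne, Complex.ofReal_eq_zero]; linarith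
  have h1 : (lam : ℂ) ^ (k.1 + 1) * ((lam : ℂ)⁻¹) ^ (k.1 + 1) = 1 := by
    rw [← mul_pow, mul_inv_cancel₀ h, one_pow]
  have h2 : ((lam : ℂ) ^ 2) ^ (k.1 + 1) = ((lam : ℂ) ^ (k.1 + 1)) ^ 2 := by
    rw [← pow_mul, ← pow_mul, mul_comm]
  have h3 : (((lam : ℂ) ^ 2)⁻¹) ^ (k.1 + 1) = (((lam : ℂ)⁻¹) ^ (k.1 + 1)) ^ 2 := by
    rw [← inv_pow, ← pow_mul, ← pow_mul, mul_comm]
  unfold t0
  push_cast
  rw [h2, h3]
  linear_combination 2 * h1

include hl in
theorem w_ne : ((lam : ℂ) ^ 2) ≠ 0 := by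
  apply pow_ne_zero
  rw [Ne, Complex.ofReal_eq_zero]
  linarith

include hl in
theorem v_e1 : e1 (t0 lam) = -((lam : ℂ) ^ 2 + 2 + ((lam : ℂ) ^ 2)⁻¹) := by
  unfold e1
  rw [t_k lam hl]
  simp only [Fin.val_zero, zero_add, pow_one]

include hl in
theorem v_e2 : e2 (t0 lam) = 2 * (lam : ℂ) ^ 2 + 2 + 2 * ((lam : ℂ) ^ 2)⁻¹ := by
  have h := w_ne lam hl
  unfold e2
  rw [v_e1 lam hl, t_k lam hl, t_k lam hl]
  generalize (lam : ℂ) ^ 2 = w at h ⊢
  simp only [Fin.val_zero, Fin.val_one, zero_add, pow_one, Nat.reduceAdd]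
  field_simp
  ring

include hl in
theorem v_e3 : e3 (t0 lam) = -((lam : ℂ) ^ 2 + 2 + ((lam : ℂ) ^ 2)⁻¹) := by
  have h := w_ne lam hl
  unfold e3
  rw [v_e1 lam hl, v_e2 lam hl, t_k lam hl, t_k lam hl, t_k lam hl]
  generalize (lam : ℂ) ^ 2 = w at h ⊢
  simp only [Fin.val_zero, Fin.val_one, Fin.val_two, zero_add, pow_one, Nat.reduceAdd]
  field_simp
  ring

include hl in
theorem v_e4 : e4 (t0 lam) = 1 := by
  have h := w_ne lam hl
  have h3 : ((3 : Fin 4) : ℕ) = 3 := rfl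
  unfold e4
  rw [v_e1 lam hl, v_e2 lam hl, v_e3 lam hl, t_k lam hl, t_k lam hl, t_k lam hl, t_k lam hl]
  generalize (lam : ℂ) ^ 2 = w at h ⊢
  simp only [Fin.val_zero, Fin.val_one, Fin.val_two, h3, zero_add, pow_one, Nat.reduceAdd]
  field_simp
  ring

include hl in
theorem v_root : ((lam : ℂ) ^ 2) ^ 4 + e1 (t0 lam) * ((lam : ℂ) ^ 2) ^ 3 +
    e2 (t0 lam) * ((lam : ℂ) ^ 2) ^ 2 + e3 (t0 lam) * ((lam : ℂ) ^ 2) + e4 (t0 lam) = 0 := by
  have h := w_ne lam hl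
  rw [v_e1 lam hl, v_e2 lam hl, v_e3 lam hl, v_e4 lam hl]
  generalize (lam : ℂ) ^ 2 = w at h ⊢
  field_simp
  ring

include hl in
theorem v_q2 : q2 (t0 lam) ((lam : ℂ) ^ 2) = -(2 + (lam : ℂ)⁻¹ ^ 2) := by
  unfold q2
  rw [v_e1 lam hl, inv_pow]
  ring

include hl in
theorem v_q1 : q1 (t0 lam) ((lam : ℂ) ^ 2) = 1 + 2 * (lam : ℂ)⁻¹ ^ 2 := by
  have h := w_ne lam hl
  unfold q1
  rw [v_q2 lam hl, v_e2 lam hl, inv_pow]
  generalize (lam : ℂ) ^ 2 = w at h ⊢
  field_simp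
  ring

include hl in
theorem v_q0 : q0 (t0 lam) ((lam : ℂ) ^ 2) = -(lam : ℂ)⁻¹ ^ 2 := by
  have h := w_ne lam hl
  unfold q0
  rw [v_q1 lam hl, v_e3 lam hl, inv_pow]
  generalize (lam : ℂ) ^ 2 = w at h ⊢
  field_simp
  ring

include hl in
theorem v_dd : dd (t0 lam) ((lam : ℂ) ^ 2) =
    (((lam ^ 2 - 1) ^ 2 * (lam ^ 2 - lam⁻¹ ^ 2) : ℝ) : ℂ) := by
  unfold dd
  rw [v_q0 lam hl, v_q1 lam hl, v_q2 lam hl]
  push_cast
  ring

include hl in
theorem v_dd_ne : dd (t0 lam) ((lam : ℂ) ^ 2) ≠ 0 := by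
  rw [v_dd lam hl, Ne, Complex.ofReal_eq_zero]
  have h1 : 1 < lam ^ 2 := by nlinarith
  have h2 : lam⁻¹ < 1 := inv_lt_one_of_one_lt₀ hl
  have h3 : 0 < lam⁻¹ := by positivity
  have h4 : lam⁻¹ ^ 2 < 1 := by nlinarith
  have : 0 < (lam ^ 2 - 1) ^ 2 * (lam ^ 2 - lam⁻¹ ^ 2) :=
    mul_pos (by nlinarith) (by linarith)
  exact this.ne'

include hl in
theorem v_cc (i : Fin 4) : cc (t0 lam) ((lam : ℂ) ^ 2) i = ((c0 lam i : ℝ) : ℂ) := by
  unfold cc c0
  rw [v_q0 lam hl, v_q1 lam hl, v_q2 lam hl, v_dd lam hl]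
  fin_cases i
  · simp
  · simp
  · simp
  · simp

end limit

theorem c_cc (lam : ℝ) (hl : 1 < lam) (i : Fin 4) :
    ContinuousAt (fun x : (Fin 4 → ℂ) × ℂ => cc x.1 x.2 i) (t0 lam, (lam : ℂ) ^ 2) := by
  have h0 := v_dd_ne lam hl
  unfold cc
  fin_cases i
  · exact (c_q0.continuousAt).div c_dd.continuousAt h0
  · exact (c_q1.continuousAt).div c_dd.continuousAt h0
  · exact (c_q2.continuousAt).div c_dd.continuousAt h0
  · exact (continuousAt_const).div c_dd.continuousAt h0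

theorem proj : S_PROJ := by
  intro lam hl ε hε
  -- neighbourhood of the limit
  have hU : ∀ᶠ x in 𝓝 (t0 lam, (lam : ℂ) ^ 2), dd x.1 x.2 ≠ 0 ∧
      ∀ i : Fin 4, ‖cc x.1 x.2 i - cc (t0 lam) ((lam : ℂ) ^ 2) i‖ ≤ ε := by
    refine Filter.Eventually.and (c_dd.continuousAt.eventually_ne (v_dd_ne lam hl)) ?_
    rw [Filter.eventually_all]
    intro i
    have h1 := (c_cc lam hl i)
    rw [Metric.continuousAt_iff'] at h1
    filter_upwards [h1 ε hε] with x hx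
    rw [dist_eq_norm] at hx
    exact hx.le
  rw [Metric.eventually_nhds_iff] at hU
  obtain ⟨η, hη, hU⟩ := hU
  -- the root
  have hR : ∀ᶠ t in 𝓝 (t0 lam), ‖((lam : ℂ) ^ 2) ^ 4 + e1 t * ((lam : ℂ) ^ 2) ^ 3 +
      e2 t * ((lam : ℂ) ^ 2) ^ 2 + e3 t * ((lam : ℂ) ^ 2) + e4 t‖ < η ^ 4 := by
    have hc : Continuous fun t : Fin 4 → ℂ => ‖((lam : ℂ) ^ 2) ^ 4 + e1 t * ((lam : ℂ) ^ 2) ^ 3 +
        e2 t * ((lam : ℂ) ^ 2) ^ 2 + e3 t * ((lam : ℂ) ^ 2) + e4 t‖ := by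
      have := c_e1
      have := c_e2
      have := c_e3
      have := c_e4
      fun_prop
    have h2 := hc.continuousAt (x := t0 lam)
    refine h2.eventually_lt continuousAt_const ?_
    rw [v_root lam hl, norm_zero]
    positivity
  rw [Metric.eventually_nhds_iff] at hR
  obtain ⟨η', hη', hR⟩ := hR
  refine ⟨min η η' / 2, by positivity, fun A hA => ?_⟩
  have hmin : 0 < min η η' := lt_min hη hη'
  have hdist : dist (trs A) (t0 lam) ≤ min η η' / 2 := by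
    rw [dist_pi_le_iff (by positivity)]
    intro k
    rw [dist_eq_norm]
    exact hA (k.1 + 1) (by rw [Finset.mem_Icc]; omega)
  have hlt : dist (trs A) (t0 lam) < min η η' := by linarith
  have h3 := hR (lt_of_lt_of_le hlt (min_le_right _ _))
  rw [← eval_charpoly] at h3
  obtain ⟨θ, h4, h5⟩ := root_near A _ η hη.le h3
  have h6 := hU (y := (trs A, θ)) (by
    rw [Prod.dist_eq, max_lt_iff]
    refine ⟨lt_of_lt_of_le hlt (min_le_left _ _), ?_⟩
    rw [dist_comm, dist_eq_norm]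
    exact h5)
  obtain ⟨p, q, h7, h8⟩ := proj_one A θ h4 h6.1
  refine ⟨p, q, cc (trs A) θ, h7, h8, fun i => ?_⟩
  rw [← v_cc lam hl i]
  exact h6.2 i

end Pool.Agent.Q86.SA.PJ
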