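import Pool.Agent.Q86.SA.Def

/-!
# Project SA: lemma statements

Disproof of the maximality of the simple `2`-Anosov domain in the `SL(4,ℂ)` character variety.
The point of the character variety that is added is the character `(tr γ)²` of `γ ↦ γ ⊗ γ`.
-/

set_option autoImplicit false

namespace Pool.Agent.Q86.SA

open Matrix Topology UpperHalfPlane
open scoped MatrixGroups

/-- the trace -/
def tr (g : SL(2, ℝ)) : ℝ := g.1 0 0 + g.1 1 1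

/-- all entries are bounded by `R` -/
def Bd (R : ℝ) (g : SL(2, ℝ)) : Prop := ∀ i j, |g.1 i j| ≤ R

/-- the character of `γ ↦ γ ⊗ γ` -/
noncomputable def chi0 (Γ : Subgroup SL(2, ℝ)) : Γ → ℂ := fun γ => (((tr γ.1) ^ 2 : ℝ) : ℂ)

/-- the matrix of `g ⊗ g` -/
noncomputable def kk (g : SL(2, ℝ)) : Matrix (Fin 2 × Fin 2) (Fin 2 × Fin 2) ℂ :=
  fun i j => ((g.1 i.1 j.1 * g.1 i.2 j.2 : ℝ) : ℂ)

/-- the representation `ρ` is conjugate to one which is `ε`-close to `γ ↦ γ ⊗ γ` on `B` -/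
def Near {Γ : Subgroup SL(2, ℝ)} (B : Finset Γ) (ε : ℝ) (ρ : Rep Γ 4) : Prop :=
  ∃ (h : Matrix (Fin 2 × Fin 2) (Fin 4) ℂ) (h' : Matrix (Fin 4) (Fin 2 × Fin 2) ℂ),
    h * h' = 1 ∧ h' * h = 1 ∧ ∀ b ∈ B, ∀ i j, ‖(h * (ρ b).1 * h' - kk b.1) i j‖ ≤ ε

/-- COMP: compact fundamental domain -/
def S_COMP : Prop := ∀ Γ : Subgroup SL(2, ℝ), IsSurface Γ →
  ∃ R : ℝ, ∀ g : SL(2, ℝ), ∃ γ ∈ Γ, ∃ k : SL(2, ℝ), g = γ * k ∧ Bd R k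

/-- FIN: discreteness -/
def S_FIN : Prop := ∀ Γ : Subgroup SL(2, ℝ), IsSurface Γ →
  ∀ R : ℝ, {γ : SL(2, ℝ) | γ ∈ Γ ∧ Bd R γ}.Finite

/-- HYP: all nontrivial elements are hyperbolic -/
def S_HYP : Prop := ∀ Γ : Subgroup SL(2, ℝ), IsSurface Γ → ∀ γ ∈ Γ, γ ≠ 1 → 2 < |tr γ|

/-- DIAG: hyperbolic elements are diagonalizable -/
def S_DIAG : Prop := ∀ g : SL(2, ℝ), 2 < |tr g| → ∃ (x : SL(2, ℝ)) (ℓ : ℝ), 0 < ℓ ∧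
  (g * x = x * flow ℓ ∨ g * x = -(x * flow ℓ)) ∧ |tr g| = 2 * Real.cosh (ℓ / 2)

/-- SPEC: the set of traces is discrete -/
def S_SPEC : Prop := ∀ Γ : Subgroup SL(2, ℝ), IsSurface Γ →
  ∀ R : ℝ, {t : ℝ | ∃ γ ∈ Γ, tr γ = t ∧ |t| ≤ R}.Finite

/-- NONEL: the group is not elementary -/
def S_NONEL : Prop := ∀ Γ : Subgroup SL(2, ℝ), IsSurface Γ →
  ∃ a ∈ Γ, ∃ b ∈ Γ, tr (a * b * a⁻¹ * b⁻¹) ≠ 2

/-- FG: the group is generated by a bounded set -/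
def S_FG : Prop := ∀ Γ : Subgroup SL(2, ℝ), IsSurface Γ →
  ∃ R : ℝ, Γ ≤ Subgroup.closure {γ : SL(2, ℝ) | γ ∈ Γ ∧ Bd R γ}

/-- FRAME: traces bound the entries after a conjugation (linear algebra) -/
def S_FRAME : Prop := ∀ R δ : ℝ, 0 < δ → ∃ C : ℝ, ∀ A B : SL(2, ℝ),
  2 + δ ≤ |tr A| → |tr A| ≤ R → |tr B| ≤ R → |tr (A * B)| ≤ R →
  |tr (A * B * A⁻¹ * B⁻¹)| ≤ R → δ ≤ |tr (A * B * A⁻¹ * B⁻¹) - 2| →
  ∃ h : SL(2, ℝ), Bd C (h⁻¹ * A * h) ∧ Bd C (h⁻¹ * B * h) ∧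
    ∀ X : SL(2, ℝ), |tr X| ≤ R → |tr (A * X)| ≤ R → |tr (B * X)| ≤ R → |tr (A * B * X)| ≤ R →
      Bd C (h⁻¹ * X * h)

/-- OUT: bounded traces on every element allow only finitely many outer automorphisms -/
def S_OUT : Prop := ∀ Γ : Subgroup SL(2, ℝ), IsSurface Γ → ∀ bd : Γ → ℝ,
  ((QuotientGroup.mk : MulAut Γ → OutGroup Γ) ''
    {ψ : MulAut Γ | ∀ γ : Γ, |tr (ψ γ).1| ≤ bd γ}).Finite

/-- SLICE: a closed geodesic is cut into pieces of length between `1` and `2` -/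
def S_SLICE : Prop := ∀ Γ : Subgroup SL(2, ℝ), IsSurface Γ → ∃ R : ℝ, ∀ γ : Γ,
  2 * Real.cosh (1 / 2) ≤ |tr γ.1| →
  ∃ (n : ℕ) (L : ℝ) (k : ℕ → SL(2, ℝ)) (b : ℕ → Γ) (g : Γ), 1 ≤ n ∧ 1 ≤ L ∧ L ≤ 2 ∧
    |tr γ.1| = 2 * Real.cosh (n * L / 2) ∧ (∀ j, Bd R (k j)) ∧
    (∀ j, j < n → ((b j).1 * k (j + 1) = k j * flow L ∨ (b j).1 * k (j + 1) = -(k j * flow L))) ∧
    k n = k 0 ∧ g⁻¹ * γ * g = (List.ofFn (fun j : Fin n => b j)).prod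

/-- SR: growth of the powers gives an eigenvalue -/
def S_SR : Prop := ∀ (A : Matrix (Fin 2 × Fin 2) (Fin 2 × Fin 2) ℂ) (s : ℝ)
  (v : Fin 2 × Fin 2 → ℂ) (i : Fin 2 × Fin 2), 0 ≤ s → (∀ m : ℕ, s ^ m ≤ ‖((A ^ m) *ᵥ v) i‖) →
  ∃ μ ∈ spectrum ℂ A, s ≤ ‖μ‖

/-- NEWT: bounded traces of the powers bound the eigenvalues -/
def S_NEWT : Prop := ∀ M : ℝ, ∃ T : ℝ, ∀ A : Matrix (Fin 4) (Fin 4) ℂ,
  (∀ k ∈ Finset.Icc 1 4, ‖(A ^ k).trace‖ ≤ M) → ∀ μ ∈ spectrum ℂ A, ‖μ‖ ≤ T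

/-- CHP: the traces of the powers determine the characteristic polynomial -/
def S_CHP : Prop := ∀ A A' : Matrix (Fin 4) (Fin 4) ℂ,
  (∀ k ∈ Finset.Icc 1 4, (A ^ k).trace = (A' ^ k).trace) → A.charpoly = A'.charpoly

/-- CONE: products of matrices close to `flow L ⊗ flow L` preserve a cone and expand it -/
def S_CONE : Prop := ∀ (n : ℕ) (L : ℝ) (M : ℕ → Matrix (Fin 2 × Fin 2) (Fin 2 × Fin 2) ℂ), 1 ≤ L →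
  (∀ j, j < n → ∀ i i', ‖(M j - kk (flow L)) i i'‖ ≤ 1 / 32) →
  ∀ v : Fin 2 × Fin 2 → ℂ, (∀ i, ‖v i‖ ≤ ‖v (0, 0)‖) →
    (∀ i, ‖((List.ofFn (fun j : Fin n => M j)).prod *ᵥ v) i‖ ≤
      ‖((List.ofFn (fun j : Fin n => M j)).prod *ᵥ v) (0, 0)‖) ∧
    2 ^ n * ‖v (0, 0)‖ ≤ ‖((List.ofFn (fun j : Fin n => M j)).prod *ᵥ v) (0, 0)‖

/-- GROW: near `γ ↦ γ ⊗ γ` the traces of the first four powers bound the length, uniformly -/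
def S_GROW : Prop := ∀ Γ : Subgroup SL(2, ℝ), IsSurface Γ → ∃ (B : Finset Γ) (ε : ℝ), 0 < ε ∧
  ∀ M : ℝ, ∃ T : ℝ, ∀ ρ : Rep Γ 4, Near B ε ρ →
    ∀ γ : Γ, (∀ k ∈ Finset.Icc 1 4, ‖character ρ (γ ^ k)‖ ≤ M) → |tr γ.1| ≤ T

/-- the coefficients of `(z - 1)² (z - λ⁻²) / ((λ² - 1)² (λ² - λ⁻²))` -/
noncomputable def c0 (lam : ℝ) (i : Fin 4) : ℝ :=
  (![-lam⁻¹ ^ 2, 1 + 2 * lam⁻¹ ^ 2, -(2 + lam⁻¹ ^ 2), 1] : Fin 4 → ℝ) i /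
    ((lam ^ 2 - 1) ^ 2 * (lam ^ 2 - lam⁻¹ ^ 2))

/-- PROJ: the spectral projection of the largest eigenvalue has rank one and depends continuously
on the traces of the powers -/
def S_PROJ : Prop := ∀ lam : ℝ, 1 < lam → ∀ ε : ℝ, 0 < ε → ∃ δ : ℝ, 0 < δ ∧
  ∀ A : Matrix (Fin 4) (Fin 4) ℂ,
    (∀ k ∈ Finset.Icc 1 4, ‖(A ^ k).trace - (((lam ^ k + lam⁻¹ ^ k) ^ 2 : ℝ) : ℂ)‖ ≤ δ) →
    ∃ (p q c : Fin 4 → ℂ), q ⬝ᵥ p = 1 ∧ Matrix.vecMulVec p q = ∑ i : Fin 4, c i • A ^ (i : ℕ) ∧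
      ∀ i, ‖c i - ((c0 lam i : ℝ) : ℂ)‖ ≤ ε

/-- PTS: a hyperbolic element and elements in general position -/
def S_PTS : Prop := ∀ Γ : Subgroup SL(2, ℝ), IsSurface Γ →
  ∃ (a : Γ) (g : SL(2, ℝ)) (ℓ : ℝ), 0 < ℓ ∧ (a.1 * g = g * flow ℓ ∨ a.1 * g = -(g * flow ℓ)) ∧
    ∃ r s : Fin 3 → Γ, Matrix.det (Matrix.of fun i j : Fin 3 =>
      ((g⁻¹ * ((r i).1 * (s j).1) * g).1 0 0) ^ 2) ≠ 0

/-- BLK: complement of a nondegenerate pairing -/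
def S_BLK : Prop := ∀ (L : Matrix (Fin 3) (Fin 4) ℂ) (E : Matrix (Fin 4) (Fin 3) ℂ),
  (L * E).det ≠ 0 → ∃ (n : Matrix (Fin 4) (Fin 1) ℂ) (m : Matrix (Fin 1) (Fin 4) ℂ),
    L * n = 0 ∧ m * E = 0 ∧ m * n = 1 ∧ E * (L * E)⁻¹ * L + n * m = 1

/-- CONV: representations whose characters converge to `(tr γ)²` converge up to conjugation -/
def S_CONV : Prop := ∀ Γ : Subgroup SL(2, ℝ), IsSurface Γ → ∀ (B : Finset Γ) (ε : ℝ), 0 < ε →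
  ∃ U ∈ 𝓝 (chi0 Γ), ∀ ρ : Rep Γ 4, character ρ ∈ U → Near B ε ρ

/-- SYS: there is a simple closed geodesic (the systole) -/
def S_SYS : Prop := ∀ Γ : Subgroup SL(2, ℝ), IsSurface Γ → ∃ x ℓ, IsSimpleGeodesic Γ x ℓ

/-- IDEM: normal form of an idempotent matrix of rank two -/
def S_IDEM : Prop := ∀ P : Matrix (Fin 4) (Fin 4) ℂ, P * P = P → P.rank = 2 →
  ∃ (h : Matrix (Fin 4) (Fin 2 ⊕ Fin 2) ℂ) (h' : Matrix (Fin 2 ⊕ Fin 2) (Fin 4) ℂ),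
    h * h' = 1 ∧ h' * h = 1 ∧ h' * P * h = Matrix.fromBlocks 1 0 0 0

/-- NOT: a representation with character `(tr γ)²` is not simple `2`-Anosov -/
def S_NOT : Prop := ∀ Γ : Subgroup SL(2, ℝ), IsSurface Γ → ∀ ρ : Rep Γ 4,
  character ρ = chi0 Γ → ¬ IsSimpleAnosov Γ 4 2 ρ

/-- BASE: the character `(tr γ)²` is a point of the character variety -/
def S_BASE : Prop := ∀ Γ : Subgroup SL(2, ℝ), ∃ ρ : Rep Γ 4, character ρ = chi0 Γ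

/-- MAIN -/
def S_MAIN : Prop := ∀ Γ : Subgroup SL(2, ℝ), IsSurface Γ →
  ∃ χ : CharVar Γ 4, (∀ γ : Γ, χ.1 γ = (((γ.1.1 0 0 + γ.1.1 1 1) ^ 2 : ℝ) : ℂ)) ∧
    χ ∉ simpleAnosovDomain Γ 4 2 ∧
    (∀ Ω : Set (CharVar Γ 4), IsDomain Ω → ∃ Ω' : Set (CharVar Γ 4), IsDomain Ω' ∧ Ω ⊆ Ω' ∧ χ ∈ Ω')
    ∧ ¬ IsMaximalDomain (simpleAnosovDomain Γ 4 2)

end Pool.Agent.Q86.SA
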